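import Pool.Agent.V5helper25.TK.Main

/-!
# MP_4a0782, circle extensions over hyperbolic bases: setting
-/

set_option autoImplicit false
set_option linter.unusedSectionVars false

open scoped Topology
open Filter Set Metric

universe u v

namespace Pool.Agent.V5helper25.TG

open Pool.Agent.TH80.OMS Pool.Agent.N813.CX Pool.Agent.N813.CX.CLOS Pool.Agent.V5helper25.TK

/-- no hills -/
theorem hill {T : ℝ → ℝ} {θ : ℝ} (h : SF T θ) (hl : ∀ t u, t ≤ u → T u - T t ≤ u - t)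
    {p q r : ℝ} (h1 : p < q) (h2 : q < r) (h3 : T p < T q) (h4 : T r < T q)
    (h5 : T p + (r - p) < θ) (h6 : -θ < T q) : False := by
  obtain ⟨c, hc, hmax⟩ := isCompact_Icc.exists_isMaxOn (nonempty_Icc.2 (h1.trans h2).le)
    h.cont.continuousOn
  have hq : T q ≤ T c := hmax ⟨h1.le, h2.le⟩
  have hcp : c ≠ p := by
    rintro rfl
    linarith
  have hcr : c ≠ r := by
    rintro rfl
    linarith
  have hc' : c ∈ Ioo p r := ⟨lt_of_le_of_ne hc.1 (Ne.symm hcp), lt_of_le_of_ne hc.2 hcr⟩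
  have hup := hl p c hc.1
  refine h.ext c ?_ (Or.inr ?_)
  · rw [abs_lt]
    constructor
    · linarith
    · linarith [hc.2]
  · exact hmax.isLocalMax (Icc_mem_nhds hc'.1 hc'.2)

/-- no valleys -/
theorem valley {T : ℝ → ℝ} {θ : ℝ} (h : SF T θ) (hl : ∀ t u, t ≤ u → T u - T t ≤ u - t)
    {p q r : ℝ} (h1 : p < q) (h2 : q < r) (h3 : T q < T p) (h4 : T q < T r)
    (h5 : -θ < T r - (r - p)) (h6 : T q < θ) : False := by
  obtain ⟨c, hc, hmin⟩ := isCompact_Icc.exists_isMinOn (nonempty_Icc.2 (h1.trans h2).le)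
    h.cont.continuousOn
  have hq : T c ≤ T q := hmin ⟨h1.le, h2.le⟩
  have hcp : c ≠ p := by
    rintro rfl
    linarith
  have hcr : c ≠ r := by
    rintro rfl
    linarith
  have hc' : c ∈ Ioo p r := ⟨lt_of_le_of_ne hc.1 (Ne.symm hcp), lt_of_le_of_ne hc.2 hcr⟩
  have hup := hl c r hc.2
  refine h.ext c ?_ (Or.inl ?_)
  · rw [abs_lt]
    constructor
    · linarith [hc.1]
    · linarith
  · exact hmin.isLocalMin (Icc_mem_nhds hc'.1 hc'.2)

section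

variable {N : Type u} [MetricSpace N] [CompactSpace N] {B : Type v} [MetricSpace B] {F : N ≃ₜ N}
  {ψ : ℝ → N → N} {a : N → ℝ → ℝ} {π : N → B} {f : B → B} {θ₀ : ℝ} {S : N → ℝ → ℝ}

/-- small rotations are close to the identity -/
theorem psi_small {G : N → N} (h : TopExt G ψ a) {ε : ℝ} (hε : 0 < ε) :
    ∃ δ : ℝ, 0 < δ ∧ ∀ (v : N) (t : ℝ), |t| < δ → dist (ψ t v) v < ε := by
  have hK : IsCompact (Icc (-1 : ℝ) 1 ×ˢ (univ : Set N)) := isCompact_Icc.prod isCompact_univ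
  have hu := hK.uniformContinuousOn_of_continuous h.cont.continuousOn
  obtain ⟨δ, hδ, hδ'⟩ := Metric.uniformContinuousOn_iff.1 hu ε hε
  refine ⟨min δ 1, by positivity, fun v t ht => ?_⟩
  have l1 := ht.trans_le (min_le_left _ _)
  have l2 := abs_lt.1 (ht.trans_le (min_le_right _ _))
  have h1 := hδ' (t, v) ⟨⟨l2.1.le, l2.2.le⟩, mem_univ _⟩ (0, v)
    ⟨⟨by norm_num, by norm_num⟩, mem_univ _⟩
    (by rw [Prod.dist_eq, dist_self, Real.dist_eq, sub_zero]; exact max_lt l1 hδ)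
  rwa [show ψ (0, v).1 (0, v).2 = v from h.zero v] at h1

/-- the fibre maps move small distances to small distances -/
theorem a_small {G : N → N} (h : TopExt G ψ a) (hG : Continuous G) {ε : ℝ} (hε : 0 < ε) :
    ∃ δ : ℝ, 0 < δ ∧ ∀ (v : N) (t : ℝ), |t| < δ → |a v t| < ε := by
  obtain ⟨ε', hε', h1, h2⟩ : ∃ ε' : ℝ, 0 < ε' ∧ ε' ≤ ε ∧ ε' ≤ 1 / 2 :=
    ⟨min ε (1 / 2), by positivity, min_le_left _ _, min_le_right _ _⟩
  obtain ⟨δ₁, hδ₁, H1⟩ := u1 h ε' hε'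
  obtain ⟨δ₂, hδ₂, H2⟩ := Metric.uniformContinuous_iff.1
    (CompactSpace.uniformContinuous_of_continuous hG) δ₁ hδ₁
  obtain ⟨δ₃, hδ₃, H3⟩ := psi_small h hδ₂
  refine ⟨δ₃, hδ₃, fun v t ht => ?_⟩
  have key : ∀ t', |t'| ≤ |t| → ∃ j : ℤ, |a v t' - j| < ε' := by
    intro t' ht'
    have e1 : dist (G (ψ t' v)) (G v) < δ₁ := H2 (H3 v t' (ht'.trans_lt ht))
    rw [h.ext] at e1
    obtain ⟨σ, hσ, hσ'⟩ := H1 _ _ e1
    obtain ⟨j, hj⟩ := (psi_eq h _ _ _).1 hσ'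
    exact ⟨j, by rw [hj]; simpa using hσ⟩
  refine lt_of_lt_of_le ?_ h1
  by_contra hcon
  push Not at hcon
  have hc : Continuous fun r => |a v (r * t)| :=
    ((h.acont v).comp (continuous_id.mul continuous_const)).abs
  obtain ⟨c, hc1, hc2⟩ := intermediate_value_Icc (zero_le_one' ℝ) hc.continuousOn
    (show ε' ∈ Icc |a v (0 * t)| |a v (1 * t)| from ⟨by
      rw [zero_mul, h.azero, abs_zero]; exact hε'.le, by rwa [one_mul]⟩)
  obtain ⟨j, hj⟩ := key (c * t) (by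
    rw [abs_mul, abs_of_nonneg hc1.1]
    exact mul_le_of_le_one_left (abs_nonneg _) hc1.2)
  have hcc' : |a v (c * t)| = ε' := hc2
  have h5 : |(j : ℝ)| < 1 := by
    have h6 : (j : ℝ) = a v (c * t) - (a v (c * t) - j) := by ring
    rw [h6]
    have h7 := abs_sub (a v (c * t)) (a v (c * t) - j)
    linarith
  have h8 : |j| < 1 := by exact_mod_cast h5
  have h9 : j = 0 := Int.abs_lt_one_iff.1 h8
  rw [h9, Int.cast_zero, sub_zero, hcc'] at hj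
  exact lt_irrefl _ hj

/-- **Tracking of periodic pseudo-orbits.** -/
theorem ptrack {G : N → N} (hG : Continuous G) (h : TopExt G ψ a) (hπ : OrbitMap G ψ π f) {ε : ℝ}
    (hε : 0 < ε) :
    ∃ η : ℝ, 0 < η ∧ ∀ (z : B) (m : ℕ) (u : ℕ → N) (v : N), 1 ≤ m → f^[m] z = z →
      dist (u m) (u 0) < η → (∀ i < m, dist (G (u i)) (u (i + 1)) < η) →
      (∀ i ≤ m, dist (f^[i] z) (π (u i)) < η) → π v = z → dist v (u 0) < η →
      ∃ θ : ℝ, |θ| < ε ∧ v ∈ Per fun y => ψ θ (G y) := by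
  obtain ⟨ε₁, hε₁, hε₁'⟩ : ∃ ε₁ : ℝ, 0 < ε₁ ∧ 2 * ε₁ < ε := ⟨ε / 4, by linarith, by linarith⟩
  obtain ⟨δ₁, hδ₁, H1⟩ := u1 h ε₁ hε₁
  obtain ⟨δc, hδc, H2⟩ := Metric.uniformContinuous_iff.1
    (CompactSpace.uniformContinuous_of_continuous hG) (δ₁ / 4) (by linarith)
  obtain ⟨δ₂, hδ₂, d1, d3⟩ : ∃ δ₂ : ℝ, 0 < δ₂ ∧ δ₂ ≤ δ₁ / 4 ∧ δ₂ ≤ δc :=
    ⟨min (δ₁ / 4) δc, by positivity, min_le_left _ _, min_le_right _ _⟩
  obtain ⟨δ, hδ, H3⟩ := u2 h hπ δ₂ hδ₂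
  refine ⟨min δ (min δ₂ (δ₁ / 4)), by positivity, fun z m u v hm hz hu hjump hsh hvz hvu => ?_⟩
  have l1 : min δ (min δ₂ (δ₁ / 4)) ≤ δ := min_le_left _ _
  have l2 : min δ (min δ₂ (δ₁ / 4)) ≤ δ₂ := (min_le_right _ _).trans (min_le_left _ _)
  have l3 : min δ (min δ₂ (δ₁ / 4)) ≤ δ₁ / 4 := (min_le_right _ _).trans (min_le_right _ _)
  have h5 : ∀ i, ∃ q : N, (i = 0 → q = v) ∧ (i ≤ m → π q = f^[i] z ∧ dist q (u i) < δ₂) := by
    intro i
    rcases Nat.eq_zero_or_pos i with hi0 | hi0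
    · subst hi0
      exact ⟨v, fun _ => rfl, fun _ => ⟨hvz, hvu.trans_le l2⟩⟩
    · by_cases hi : i ≤ m
      · obtain ⟨q, h1, h2⟩ := H3 (u i) (f^[i] z) ((hsh i hi).trans_le l1)
        exact ⟨q, fun h => by omega, fun _ => ⟨h1, h2⟩⟩
      · exact ⟨v, fun _ => rfl, fun h => absurd h hi⟩
  choose q hq0 hq using h5
  have hqv : q 0 = v := hq0 0 rfl
  have h6 : ∀ i, ∃ σ : ℝ, |σ| < ε₁ ∧ (i < m → G (q i) = ψ σ (q (i + 1))) := by
    intro i
    by_cases hi : i < m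
    · have h1 := hq i hi.le
      have h2 := hq (i + 1) hi
      have h3 : π (q (i + 1)) = π (G (q i)) := by
        rw [h2.1, hπ.semi, h1.1, Function.iterate_succ_apply']
      obtain ⟨t, ht⟩ := (hπ.eq _ _).1 h3
      have h4 : dist (ψ t (q (i + 1))) (q (i + 1)) < δ₁ := by
        rw [← ht]
        have h7 : dist (G (q i)) (G (u i)) < δ₁ / 4 := H2 (h1.2.trans_le d3)
        have h8 : dist (u (i + 1)) (q (i + 1)) < δ₂ := by
          rw [dist_comm]; exact h2.2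
        have h9 := hjump i hi
        have h10 := dist_triangle4 (G (q i)) (G (u i)) (u (i + 1)) (q (i + 1))
        linarith
      obtain ⟨σ, hσ, hσ'⟩ := H1 _ _ h4
      exact ⟨σ, hσ, fun _ => by rw [ht, hσ']⟩
    · exact ⟨0, by simpa using hε₁, fun h => absurd h hi⟩
  choose σ hσ hσ' using h6
  have h7 : ∃ σ' : ℝ, |σ'| < ε₁ ∧ q m = ψ σ' (q 0) := by
    have h1 := hq m le_rfl
    have h2 := hq 0 (Nat.zero_le m)
    have h3 : π (q 0) = π (q m) := by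
      rw [h1.1, h2.1, hz]; rfl
    obtain ⟨t, ht⟩ := (hπ.eq _ _).1 h3
    have h4 : dist (ψ t (q 0)) (q 0) < δ₁ := by
      rw [← ht]
      have h8 : dist (u 0) (q 0) < δ₂ := by
        rw [dist_comm]; exact h2.2
      have h10 := dist_triangle4 (q m) (u m) (u 0) (q 0)
      linarith [h1.2]
    obtain ⟨σ', h5, h6⟩ := H1 _ _ h4
    exact ⟨σ', h5, by rw [ht, h6]⟩
  obtain ⟨σ', hσ1, hσ2⟩ := h7
  let b : ℕ → ℝ → ℝ := fun i => a (q i)
  have hb : ∀ i, Monotone (b i) := fun i => (h.amono (q i)).monotone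
  have hb0 : ∀ i, b i 0 = 0 := fun i => h.azero (q i)
  have hbc : ∀ i, Continuous (b i) := fun i => h.acont (q i)
  have key : ∀ θ i, i ≤ m → (fun y => ψ θ (G y))^[i] (q 0) = ψ (tau b σ θ i) (q i) := by
    intro θ i
    induction i with
    | zero => intro _; exact (h.zero (q 0)).symm
    | succ i ih =>
      intro hi
      rw [Function.iterate_succ_apply', ih (Nat.le_of_succ_le hi)]
      show ψ θ (G (ψ (tau b σ θ i) (q i))) = ψ (θ + (b i (tau b σ θ i) + σ i)) (q (i + 1))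
      rw [h.ext, hσ' i hi, h.add, h.add]
  have hTc : Continuous fun θ => tau b σ θ m + σ' := (tau_cont b σ hbc m).add continuous_const
  obtain ⟨m', rfl⟩ : ∃ m', m = m' + 1 := ⟨m - 1, by omega⟩
  have hT1 : 0 < tau b σ (2 * ε₁) (m' + 1) + σ' := by
    have h1 := (tau_pos b σ hb hb0 ε₁ (2 * ε₁) hε₁ hσ rfl m').2
    have h2 := (abs_lt.1 hσ1).1
    linarith
  have hT2 : tau b σ (-(2 * ε₁)) (m' + 1) + σ' < 0 := by
    have h1 := (tau_neg b σ hb hb0 ε₁ (-(2 * ε₁)) hε₁ hσ rfl m').2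
    have h2 := (abs_lt.1 hσ1).2
    linarith
  obtain ⟨θ, ⟨hθ1, hθ2⟩, hθ3⟩ := intermediate_value_Icc (a := -(2 * ε₁)) (b := 2 * ε₁)
    (by linarith) hTc.continuousOn ⟨hT2.le, hT1.le⟩
  refine ⟨θ, ?_, m' + 1, hm, ?_⟩
  · rw [abs_lt]; constructor <;> linarith
  · rw [← hqv, key θ _ le_rfl, hσ2, ← h.add]
    have h3 : tau b σ θ (m' + 1) + σ' = 0 := hθ3
    rw [h3, h.zero]

/-- the parameters -/
abbrev Pm (θ₀ : ℝ) : Type := {s : ℝ // |s| < θ₀}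

/-- the data: an extension by circle homeomorphisms, the functions of the periodic fibres, and the
conjugate embeddings `Φ s` of a homeomorphism `R` (with dense periodic points) into the rotated maps -/
structure DG {Ω : Type u} [MetricSpace Ω] [CompactSpace Ω] (F : N ≃ₜ N) (ψ : ℝ → N → N)
    (a : N → ℝ → ℝ) (π : N → B) (f : B → B) (θ₀ : ℝ) (S : N → ℝ → ℝ) (e : ℝ) (R : Ω ≃ₜ Ω)
    (Φ : Pm θ₀ → C(Ω, N)) : Prop where
  top : TopExt F ψ a
  orb : OrbitMap F ψ π f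
  clos : ClosingProp f
  pos : 0 < θ₀
  sf : ∀ v, π v ∈ Per f → SF (S v) θ₀
  per : ∀ v, π v ∈ Per f → ∀ s, |s| < θ₀ → ∀ t, (ψ t v ∈ Per (Rt F ψ s) ↔ S v t = s)
  lip : ∀ v, π v ∈ Per f → ∀ t u, t ≤ u → S v u - S v t ≤ u - t
  epos : 0 < e
  exp : ∀ x y : ℤ → B, (∀ i, x i ∈ Omega f) → (∀ i, y i ∈ Omega f) → (∀ i, f (x i) = x (i + 1)) →
    (∀ i, f (y i) = y (i + 1)) → (∀ i, dist (x i) (y i) < e) → x = y
  dens : ∀ U : Set Ω, IsOpen U → U.Nonempty → ∃ ω ∈ U, ω ∈ Per R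
  conj : ∀ (s : Pm θ₀) ω, Rt F ψ s (Φ s ω) = Φ s (R ω)
  base : ∀ s ω, π (Φ s ω) ∈ Omega f
  inj : ∀ s, Function.Injective (Φ s)
  rng : ∀ (s : Pm θ₀), Per (Rt F ψ s) ⊆ range (Φ s)

end

end Pool.Agent.V5helper25.TG
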