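import Pool.Agent.V5helper25.TG.Sh

/-!
# MP_4a0782, circle extensions over hyperbolic bases: expansivity and the number of the points of the
fibres
-/

set_option autoImplicit false
set_option linter.unusedSectionVars false

open scoped Topology
open Filter Set Metric

universe u v

namespace Pool.Agent.V5helper25.TG

open Pool.Agent.TH80.OMS Pool.Agent.N813.CX Pool.Agent.N813.CX.CLOS Pool.Agent.V5helper25.TK

section

variable {N : Type u} [MetricSpace N] [CompactSpace N] {B : Type v} [MetricSpace B] {F : N ≃ₜ N}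
  {ψ : ℝ → N → N} {a : N → ℝ → ℝ} {π : N → B} {f : B → B} {θ₀ : ℝ} {S : N → ℝ → ℝ} {e : ℝ}
  {Ω : Type u} [MetricSpace Ω] [CompactSpace Ω] {R : Ω ≃ₜ Ω} {Φ : Pm θ₀ → C(Ω, N)}

/-- the inverses of the fibre maps move small distances to small distances -/
theorem a_inv_small {G : N → N} (h : TopExt G ψ a) (hG : Continuous G) {ε : ℝ} (hε : 0 < ε) :
    ∃ δ : ℝ, 0 < δ ∧ ∀ (v : N) (t : ℝ), |a v t| < δ → |t| < ε := by
  have hc : ∀ t, Continuous fun v => a v t := by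
    intro t
    rw [Metric.continuous_iff]
    intro v ε' hε'
    obtain ⟨δ, hδ, H⟩ := a_close h hG (show 0 < ε' / 2 by linarith)
    refine ⟨δ, hδ, fun w hw => ?_⟩
    rw [Real.dist_eq]
    exact (H w v hw t).trans_lt (by linarith)
  obtain ⟨δ₁, hδ₁, H1⟩ := (isCompact_univ (X := N)).exists_forall_le' (hc ε).continuousOn
    (a := 0) (fun v _ => by
      have := h.amono v hε
      rwa [h.azero] at this)
  obtain ⟨δ₂, hδ₂, H2⟩ := (isCompact_univ (X := N)).exists_forall_le' (hc (-ε)).neg.continuousOn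
    (a := 0) (fun v _ => by
      have := h.amono v (neg_lt_zero.2 hε)
      rw [h.azero] at this
      show 0 < -(a v (-ε))
      linarith)
  refine ⟨min δ₁ δ₂, lt_min hδ₁ hδ₂, fun v t ht => ?_⟩
  have l1 := abs_lt.1 (ht.trans_le (min_le_left _ _))
  have l2 := abs_lt.1 (ht.trans_le (min_le_right _ _))
  rw [abs_lt]
  constructor
  · by_contra hcon
    push Not at hcon
    have g1 := (h.amono v).monotone hcon
    have g2 : δ₂ ≤ -(a v (-ε)) := H2 v (mem_univ _)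
    linarith [l2.1]
  · by_contra hcon
    push Not at hcon
    have g1 := (h.amono v).monotone hcon
    have g2 : δ₁ ≤ a v ε := H1 v (mem_univ _)
    linarith [l1.2]

namespace DG

variable (h : DG F ψ a π f θ₀ S e R Φ)

include h

/-- the scale -/
theorem scale (s : Pm θ₀) : ∃ δa ρ : ℝ, 0 < ρ ∧ (∀ (v : N) (t : ℝ), |t| < δa → |a v t| < 1 / 4) ∧
    2 * ρ ≤ δa ∧ ρ ≤ 1 / 16 ∧ |(s : ℝ)| + 8 * ρ ≤ θ₀ := by
  obtain ⟨δa, hδa, H⟩ := a_small h.top F.continuous (show (0 : ℝ) < 1 / 4 by norm_num)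
  have hg : 0 < θ₀ - |(s : ℝ)| := by linarith [s.2]
  refine ⟨δa, min (δa / 2) (min (1 / 16) ((θ₀ - |(s : ℝ)|) / 8)), by positivity, H, ?_, ?_, ?_⟩
  · have := min_le_left (δa / 2) (min (1 / 16) ((θ₀ - |(s : ℝ)|) / 8))
    linarith
  · exact (min_le_right _ _).trans (min_le_left _ _)
  · have := (min_le_right (δa / 2) (min (1 / 16) ((θ₀ - |(s : ℝ)|) / 8))).trans (min_le_right _ _)
    linarith

/-- small positions along whole orbits vanish -/
theorem noexp' {δa : ℝ} (hδa : ∀ (v : N) (t : ℝ), |t| < δa → |a v t| < 1 / 4) {s : Pm θ₀}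
    (hs : ∀ ε : ℝ, 0 < ε → ∃ s' : Pm θ₀, (s : ℝ) < s' ∧ (s' : ℝ) < s + ε ∧
      dist (Φ s') (Φ s) < ε) {ρ : ℝ} (hρ : 0 < ρ) (r1 : 2 * ρ ≤ δa) (r2 : ρ ≤ 1 / 16)
    (r3 : |(s : ℝ)| + 8 * ρ ≤ θ₀) (x y : ℤ → Ω) (hx : ∀ i, x (i + 1) = R (x i))
    (hy : ∀ i, y (i + 1) = R (y i))
    (ht : ∀ i, ∃ t, |t| < ρ ∧ Φ s (y i) = ψ t (Φ s (x i))) : x = y := by
  choose t ht1 ht2 using ht
  have key : ∀ i, t i = 0 := by
    intro i
    rcases lt_trichotomy (t i) 0 with h1 | h1 | h1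
    · exfalso
      refine h.noexp hδa hs hρ r1 r2 r3 y x hy hx (fun i => -t i) (fun i => ?_)
        (fun i => by rw [abs_neg]; exact ht1 i) i (by show 0 < -t i; linarith)
      rw [ht2, ← h.top.add, neg_add_cancel, h.top.zero]
    · exact h1
    · exact (h.noexp hδa hs hρ r1 r2 r3 x y hx hy t ht2 ht1 i h1).elim
  funext i
  refine h.inj s ?_
  rw [ht2, key, h.top.zero]

/-- **Expansivity.** -/
theorem expans {s : Pm θ₀}
    (hs : ∀ ε : ℝ, 0 < ε → ∃ s' : Pm θ₀, (s : ℝ) < s' ∧ (s' : ℝ) < s + ε ∧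
      dist (Φ s') (Φ s) < ε) :
    ∃ ε : ℝ, 0 < ε ∧ ∀ x y : ℤ → Ω, (∀ i, x (i + 1) = R (x i)) → (∀ i, y (i + 1) = R (y i)) →
      (∀ i, dist (x i) (y i) < ε) → x = y := by
  obtain ⟨δa, ρ, hρ, hδa, r1, r2, r3⟩ := h.scale s
  obtain ⟨δ₁, hδ₁, H1⟩ := u1 h.top ρ hρ
  obtain ⟨δ₂, hδ₂, H2⟩ := Metric.uniformContinuous_iff.1
    (CompactSpace.uniformContinuous_of_continuous h.orb.cont) e h.epos
  obtain ⟨ε, hε, H3⟩ := Metric.uniformContinuous_iff.1
    (CompactSpace.uniformContinuous_of_continuous (Φ s).continuous) (min δ₁ δ₂)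
    (lt_min hδ₁ hδ₂)
  refine ⟨ε, hε, fun x y hx hy hd => ?_⟩
  have hb := h.exp (fun i => π (Φ s (x i))) (fun i => π (Φ s (y i))) (fun i => h.base _ _)
    (fun i => h.base _ _)
    (fun i => by
      show f (π (Φ s (x i))) = π (Φ s (x (i + 1)))
      rw [← (orbR h.orb (s : ℝ)).semi, h.conj, hx])
    (fun i => by
      show f (π (Φ s (y i))) = π (Φ s (y (i + 1)))
      rw [← (orbR h.orb (s : ℝ)).semi, h.conj, hy])
    (fun i => H2 ((H3 (hd i)).trans_le (min_le_right _ _)))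
  refine h.noexp' hδa hs hρ r1 r2 r3 x y hx hy fun i => ?_
  obtain ⟨t, ht⟩ := (h.orb.eq _ _).1 (congrFun hb i)
  obtain ⟨σ, hσ, hσ'⟩ := H1 (Φ s (x i)) t (by
    rw [← ht, dist_comm]
    exact (H3 (hd i)).trans_le (min_le_left _ _))
  exact ⟨σ, hσ, by rw [ht, hσ']⟩

/-- close points on orbits of the first type remain close in the future -/
theorem near_fwd {δa : ℝ} (hδa : ∀ (v : N) (t : ℝ), |t| < δa → |a v t| < 1 / 4) {s s' : Pm θ₀}
    (hss : (s : ℝ) < s') (hss' : (s' : ℝ) - s < 1 / 4) {ρ : ℝ} (hρ : ρ ≤ δa) (hρ' : ρ ≤ 1 / 4)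
    {α : Ω → ℝ} (hα : Shf ψ Φ s s' ρ α) {x y : ℤ → Ω} (hx : ∀ i, x (i + 1) = R (x i))
    (hy : ∀ i, y (i + 1) = R (y i)) {j : ℤ} {t : ℝ} (ht0 : 0 < t) (ht : t < α (x j))
    (htj : Φ s (y j) = ψ t (Φ s (x j))) (k : ℕ) :
    ∃ t, 0 < t ∧ t < α (x (j + k)) ∧ Φ s (y (j + k)) = ψ t (Φ s (x (j + k))) := by
  induction k with
  | zero => exact ⟨t, ht0, by simpa using ht, by simpa using htj⟩
  | succ k ih =>
    obtain ⟨t', a1, a2, a3⟩ := ih
    have hpos : 0 < (s' : ℝ) - s := by linarith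
    have g1 := h.evo hδa (s := s) (s' := s')
      (by rw [abs_of_pos hpos]; exact hss') (hα.eq (x (j + k)))
      (hα.eq (R (x (j + k)))) ((hα.small _).trans_le (by linarith))
      ((hα.small _).trans_le (by linarith))
    have g2 := h.top.amono (Φ s (x (j + k))) a2
    have g3 := h.top.amono (Φ s (x (j + k))) a1
    rw [h.top.azero] at g3
    push_cast
    rw [← add_assoc]
    refine ⟨a (Φ s (x (j + k))) t', g3, ?_, ?_⟩
    · rw [hx, g1]
      linarith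
    · rw [hx, hy, ← h.conj, ← h.conj, a3, Rt_ext h.top]
      show ψ (s + a (Φ s (x (j + k))) t') (F (Φ s (x (j + k)))) = ψ (a (Φ s (x (j + k))) t')
        (ψ s (F (Φ s (x (j + k)))))
      rw [← h.top.add, add_comm]

/-- close points on orbits of the second type remain close in the past -/
theorem near_bwd {δa : ℝ} (hδa : ∀ (v : N) (t : ℝ), |t| < δa → |a v t| < 1 / 4) {s s' : Pm θ₀}
    (hss : (s : ℝ) < s') (hss' : (s' : ℝ) - s < 1 / 4) {ρ δi : ℝ} (hρ : ρ + δi ≤ δa)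
    (hρ' : 2 * ρ ≤ 1 / 4) (hδi : ∀ (v : N) (t : ℝ), |a v t| < ρ → |t| < δi)
    {α : Ω → ℝ} (hα : Shf ψ Φ s s' ρ α) {x y : ℤ → Ω} (hx : ∀ i, x (i + 1) = R (x i))
    (hy : ∀ i, y (i + 1) = R (y i)) (hα0 : ∀ i, α (y i) < 0) {j : ℤ} {t : ℝ} (ht0 : 0 < t)
    (ht : t + α (y j) < 0) (htj : Φ s (y j) = ψ t (Φ s (x j))) (k : ℕ) :
    ∃ t, 0 < t ∧ t + α (y (j - k)) < 0 ∧ Φ s (y (j - k)) = ψ t (Φ s (x (j - k))) := by
  induction k with
  | zero => exact ⟨t, ht0, by simpa using ht, by simpa using htj⟩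
  | succ k ih =>
    obtain ⟨t', a1, a2, a3⟩ := ih
    have hpos : 0 < (s' : ℝ) - s := by linarith
    obtain ⟨i, hi⟩ : ∃ i : ℤ, i = j - (k + 1) := ⟨_, rfl⟩
    have hi' : j - k = i + 1 := by rw [hi]; ring
    rw [hi'] at a2 a3
    push_cast
    rw [← hi]
    obtain ⟨t, ht⟩ := a_surj h.top (Φ s (x i)) t'
    have b1 := abs_lt.1 (hα.small (y (i + 1)))
    have b2 := abs_lt.1 (hα.small (y i))
    have b3 : |t| < δi := hδi (Φ s (x i)) t (by
      rw [ht, abs_of_pos a1]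
      linarith)
    have t0 : 0 < t := by
      by_contra hcon
      push Not at hcon
      have := (h.top.amono (Φ s (x i))).monotone hcon
      rw [h.top.azero] at this
      linarith
    have e1 : Φ s (y i) = ψ t (Φ s (x i)) := by
      refine Rt_inj h.top (s : ℝ) ?_
      rw [h.conj, ← hy, a3, hx, ← h.conj, Rt_ext h.top, ht]
      show ψ t' (ψ s (F (Φ s (x i)))) = _
      rw [← h.top.add, add_comm]
    refine ⟨t, t0, ?_, e1⟩
    have e2 : ∀ i t, Φ s (y i) = ψ t (Φ s (x i)) → Φ s' (y i) = ψ (t + α (y i)) (Φ s (x i)) := by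
      intro i t hh
      rw [hα.eq, hh, ← h.top.add, add_comm]
    have b4 := abs_lt.1 b3
    have g1 := h.evo hδa (s := s) (s' := s') (γ := t + α (y i)) (γ' := t' + α (y (i + 1)))
      (by rw [abs_of_pos hpos]; exact hss') (e2 i t e1)
      (by rw [← hx, ← hy]; exact e2 _ _ a3)
      (by rw [abs_lt]; constructor <;> linarith [b2.1, b2.2, b4.1, b4.2])
      (by rw [abs_lt]; constructor <;> linarith [b1.1, b1.2, hα0 (i + 1)])
    by_contra hcon
    push Not at hcon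
    have g2 := (h.top.amono (Φ s (x i))).monotone hcon
    rw [h.top.azero] at g2
    linarith

end DG

/-- counting points of a circle -/
theorem circ_count (h : TopExt (F : N → N) ψ a) {κ : ℝ} (hκ : 0 < κ) {n : ℕ} (p : Fin n → N)
    (hp : ∀ i j, ∃ t, p j = ψ t (p i)) (hd : ∀ i j, i ≠ j → ∀ t, |t| < κ → p j ≠ ψ t (p i)) :
    n ≤ ⌊1 / κ⌋₊ + 1 := by
  by_contra hcon
  push Not at hcon
  obtain ⟨i₀⟩ : Nonempty (Fin n) := ⟨⟨0, by omega⟩⟩
  have hex : ∀ j, ∃ τ, 0 ≤ τ ∧ τ < 1 ∧ p j = ψ τ (p i₀) := by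
    intro j
    obtain ⟨t, ht⟩ := hp i₀ j
    exact ⟨Int.fract t, Int.fract_nonneg t, Int.fract_lt_one t, by rw [psi_fract h, ht]⟩
  choose τ h1 h2 h3 using hex
  obtain ⟨i, -, j, -, hij, he⟩ := Finset.exists_ne_map_eq_of_card_lt_of_maps_to
    (s := (Finset.univ : Finset (Fin n))) (t := Finset.range (⌊1 / κ⌋₊ + 1))
    (f := fun i => ⌊τ i / κ⌋₊) (by simpa using hcon) (fun i _ => by
      simp only [Finset.coe_range, mem_Iio]
      refine Nat.lt_succ_of_le (Nat.floor_le_floor ?_)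
      exact div_le_div_of_nonneg_right (h2 i).le hκ.le)
  refine hd i j hij (τ j - τ i) ?_ ?_
  · have he' : ⌊τ i / κ⌋₊ = ⌊τ j / κ⌋₊ := he
    have a1 := Nat.floor_le (show 0 ≤ τ i / κ from div_nonneg (h1 i) hκ.le)
    have a2 := Nat.lt_floor_add_one (τ i / κ)
    have b1 := Nat.floor_le (show 0 ≤ τ j / κ from div_nonneg (h1 j) hκ.le)
    have b2 := Nat.lt_floor_add_one (τ j / κ)
    rw [← he'] at b1 b2
    have c1 : |τ j / κ - τ i / κ| < 1 := by
      rw [abs_lt]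
      constructor <;> linarith
    rw [← sub_div, abs_div, abs_of_pos hκ, div_lt_one hκ] at c1
    exact c1
  · rw [h3 j, h3 i, ← h.add, sub_add_cancel]

/-- finiteness from bounds for injective families -/
theorem fin_of_inj {X : Type*} {A : Set X} {C : ℕ}
    (hA : ∀ (n : ℕ) (p : Fin n → X), Function.Injective p → (∀ i, p i ∈ A) → n ≤ C) :
    A.Finite ∧ A.ncard ≤ C := by
  have hfin : A.Finite := by
    by_contra hinf
    have hinf' : A.Infinite := hinf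
    have h1 := hA (C + 1) (fun i => hinf'.natEmbedding _ i) (fun i j hij => by
      have h2 := hinf'.natEmbedding.injective (Subtype.ext hij)
      exact Fin.ext h2) (fun i => Subtype.coe_prop _)
    omega
  refine ⟨hfin, ?_⟩
  rw [Set.ncard_eq_toFinset_card _ hfin]
  refine hA _ (fun i => (hfin.toFinset.equivFin.symm i : X)) (fun i j hij => ?_) (fun i => ?_)
  · exact hfin.toFinset.equivFin.symm.injective (Subtype.ext hij)
  · exact hfin.mem_toFinset.1 (hfin.toFinset.equivFin.symm i).2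

namespace DG

variable (h : DG F ψ a π f θ₀ S e R Φ)

include h

/-- **Bounded fibres.** -/
theorem bounded {s : Pm θ₀}
    (hs : ∀ ε : ℝ, 0 < ε → ∃ s' : Pm θ₀, (s : ℝ) < s' ∧ (s' : ℝ) < s + ε ∧
      dist (Φ s') (Φ s) < ε) :
    ∃ C : ℕ, ∀ y, {ω | π (Φ s ω) = y}.Finite ∧ {ω | π (Φ s ω) = y}.ncard ≤ C := by
  obtain ⟨δa, ρ₀, hρ₀, hδa, r1, r2, r3⟩ := h.scale s
  obtain ⟨δi, hδi, Hi⟩ := a_inv_small h.top F.continuous (ε := ρ₀) hρ₀
  obtain ⟨ρ, hρ, k1, k2⟩ : ∃ ρ : ℝ, 0 < ρ ∧ ρ ≤ ρ₀ ∧ ρ ≤ δi :=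
    ⟨min ρ₀ δi, lt_min hρ₀ hδi, min_le_left _ _, min_le_right _ _⟩
  obtain ⟨ε, hε, Hsh⟩ := h.shift_of hρ
  obtain ⟨s', s1, s2, s3⟩ := hs (min ε (1 / 4)) (lt_min hε (by norm_num))
  have hss' : (s' : ℝ) - s < 1 / 4 := by
    have := min_le_right ε (1 / 4)
    linarith
  obtain ⟨α, hα⟩ := Hsh s s' (s3.trans_le (min_le_left _ _))
  obtain ⟨c, hc, hdich, f2⟩ := h.typ_bwd hδa s1 hss' (by linarith) (by linarith) hα
  have hpos : 0 < (s' : ℝ) - s := by linarith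
  have f1 : ∀ ω, 0 ≤ α ω → (s' : ℝ) - s ≤ α (R ω) := fun ω hω =>
    h.typ_fwd hδa s1 hss' (by linarith) (by linarith) hα hω
  have hαb := fun ω => abs_lt.1 (hα.small ω)
  have tp : ∀ x : ℤ → Ω, (∀ i, x (i + 1) = R (x i)) → ∀ j, 0 ≤ α (x j) →
      ∀ i, (s' : ℝ) - s ≤ α (x i) := by
    intro x hx j hj i
    have h1 : ∀ i, 0 ≤ α (x i) := by
      refine int_all (P := fun i => 0 ≤ α (x i)) (fun i hi => ?_) (fun i hi => ?_) hj
      · rw [hx]; exact hpos.le.trans (f1 _ hi)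
      · have hi' : 0 ≤ α (x (i + 1)) := hi
        rw [hx] at hi'
        exact f2 _ hi'
    have h2 := f1 _ (h1 (i - 1))
    rwa [← hx, sub_add_cancel] at h2
  have tm : ∀ x : ℤ → Ω, (∀ i, x (i + 1) = R (x i)) → ∀ j, α (x j) < 0 → ∀ i, α (x i) ≤ -c := by
    intro x hx j hj i
    rcases hdich (x i) with h1 | h1
    · exact h1
    · have := tp x hx i h1 j
      linarith
  obtain ⟨κ, hκ, κ1, κ2⟩ : ∃ κ : ℝ, 0 < κ ∧ κ ≤ (s' : ℝ) - s ∧ κ ≤ c :=
    ⟨min ((s' : ℝ) - s) c, lt_min hpos hc, min_le_left _ _, min_le_right _ _⟩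
  have hnoeq : ∀ x y : ℤ → Ω, (∀ i, x (i + 1) = R (x i)) → (∀ i, y (i + 1) = R (y i)) → x ≠ y →
      ∀ l t, Φ s (y l) = ψ t (Φ s (x l)) → t ≠ 0 := by
    intro x y hx hy hne l t ht ht0
    rw [ht0, h.top.zero] at ht
    apply hne
    funext i
    refine int_all (P := fun i => x i = y i) (fun i hi => ?_) (fun i hi => ?_)
      (h.inj s ht).symm i
    · rw [hx, hy, hi]
    · have hi' : x (i + 1) = y (i + 1) := hi
      rw [hx, hy] at hi'
      exact R.injective hi'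
  have sepP : ∀ x y : ℤ → Ω, (∀ i, x (i + 1) = R (x i)) → (∀ i, y (i + 1) = R (y i)) →
      0 ≤ α (x 0) → 0 ≤ α (y 0) → x ≠ y →
      ∃ L : ℤ, ∀ l ≤ L, ∀ t, |t| < κ → Φ s (y l) ≠ ψ t (Φ s (x l)) := by
    intro x y hx hy hx0 hy0 hne
    by_contra hcon
    push Not at hcon
    refine hne (h.noexp' hδa hs hρ₀ r1 r2 r3 x y hx hy fun j => ?_)
    obtain ⟨l, hl, t, ht, hte⟩ := hcon j
    obtain ⟨a1, a2⟩ := abs_lt.1 ht
    have ht0 := hnoeq x y hx hy hne l t hte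
    have hk : l + ((j - l).toNat : ℤ) = j := by
      rw [Int.toNat_of_nonneg (by omega)]
      ring
    rcases lt_or_gt_of_ne ht0 with h1 | h1
    · obtain ⟨t', b1, b2, b3⟩ := h.near_fwd hδa s1 hss' (by linarith) (by linarith) hα hy hx
        (j := l) (t := -t) (by linarith) (by linarith [tp y hy 0 hy0 l])
        (by rw [hte, ← h.top.add, neg_add_cancel, h.top.zero]) (j - l).toNat
      rw [hk] at b2 b3
      refine ⟨-t', ?_, ?_⟩
      · rw [abs_neg, abs_of_pos b1]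
        linarith [(hαb (y j)).2]
      · rw [b3, ← h.top.add, neg_add_cancel, h.top.zero]
    · obtain ⟨t', b1, b2, b3⟩ := h.near_fwd hδa s1 hss' (by linarith) (by linarith) hα hx hy
        (j := l) (t := t) h1 (by linarith [tp x hx 0 hx0 l]) hte (j - l).toNat
      rw [hk] at b2 b3
      refine ⟨t', ?_, b3⟩
      rw [abs_of_pos b1]
      linarith [(hαb (x j)).2]
  have sepM : ∀ x y : ℤ → Ω, (∀ i, x (i + 1) = R (x i)) → (∀ i, y (i + 1) = R (y i)) →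
      α (x 0) < 0 → α (y 0) < 0 → x ≠ y →
      ∃ L : ℤ, ∀ l, L ≤ l → ∀ t, |t| < κ → Φ s (y l) ≠ ψ t (Φ s (x l)) := by
    intro x y hx hy hx0 hy0 hne
    by_contra hcon
    push Not at hcon
    refine hne (h.noexp' hδa hs hρ₀ r1 r2 r3 x y hx hy fun j => ?_)
    obtain ⟨l, hl, t, ht, hte⟩ := hcon j
    obtain ⟨a1, a2⟩ := abs_lt.1 ht
    have ht0 := hnoeq x y hx hy hne l t hte
    have hk : l - ((l - j).toNat : ℤ) = j := by
      rw [Int.toNat_of_nonneg (by omega)]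
      ring
    have hx0' : ∀ i, α (x i) < 0 := fun i => by linarith [tm x hx 0 hx0 i]
    have hy0' : ∀ i, α (y i) < 0 := fun i => by linarith [tm y hy 0 hy0 i]
    rcases lt_or_gt_of_ne ht0 with h1 | h1
    · obtain ⟨t', b1, b2, b3⟩ := h.near_bwd hδa s1 hss' (δi := ρ₀) (by linarith) (by linarith)
        (fun v t ht => Hi v t (ht.trans_le k2)) hα hy hx hx0' (j := l) (t := -t) (by linarith)
        (by linarith [tm x hx 0 hx0 l])
        (by rw [hte, ← h.top.add, neg_add_cancel, h.top.zero]) (l - j).toNat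
      rw [hk] at b2 b3
      refine ⟨-t', ?_, ?_⟩
      · rw [abs_neg, abs_of_pos b1]
        linarith [(hαb (x j)).1]
      · rw [b3, ← h.top.add, neg_add_cancel, h.top.zero]
    · obtain ⟨t', b1, b2, b3⟩ := h.near_bwd hδa s1 hss' (δi := ρ₀) (by linarith) (by linarith)
        (fun v t ht => Hi v t (ht.trans_le k2)) hα hx hy hy0' (j := l) (t := t) h1
        (by linarith [tm y hy 0 hy0 l]) hte (l - j).toNat
      rw [hk] at b2 b3
      refine ⟨t', ?_, b3⟩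
      rw [abs_of_pos b1]
      linarith [(hαb (y j)).1]
  -- orbits
  obtain ⟨O, hO⟩ : ∃ O : Ω → ℤ → Ω, O = fun ω i => ((R.toEquiv : Equiv.Perm Ω) ^ i) ω :=
    ⟨_, rfl⟩
  have hO1 : ∀ ω i, O ω (i + 1) = R (O ω i) := by
    intro ω i
    rw [hO]
    show ((R.toEquiv : Equiv.Perm Ω) ^ (i + 1)) ω = R (((R.toEquiv : Equiv.Perm Ω) ^ i) ω)
    rw [add_comm, zpow_add, zpow_one, Equiv.Perm.mul_apply]
    rfl
  have hO0 : ∀ ω, O ω 0 = ω := by
    intro ω
    rw [hO]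
    simp
  have hfib : ∀ ω ω', π (Φ s ω) = π (Φ s ω') → ∀ i, π (Φ s (O ω i)) = π (Φ s (O ω' i)) := by
    intro ω ω' hωω i
    refine int_all (P := fun i => π (Φ s (O ω i)) = π (Φ s (O ω' i))) (fun i hi => ?_)
      (fun i hi => ?_) (j := 0) (by rw [hO0, hO0]; exact hωω) i
    · rw [hO1, hO1, ← h.conj, ← h.conj, (orbR h.orb (s : ℝ)).semi, (orbR h.orb (s : ℝ)).semi, hi]
    · have hi' : π (Φ s (O ω (i + 1))) = π (Φ s (O ω' (i + 1))) := hi
      rw [hO1, hO1, ← h.conj, ← h.conj, (orbR h.orb (s : ℝ)).semi,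
        (orbR h.orb (s : ℝ)).semi] at hi'
      exact f_inj h.top h.orb hi'
  have hOinj : ∀ ω ω', O ω = O ω' → ω = ω' := fun ω ω' hh => by
    rw [← hO0 ω, ← hO0 ω', hh]
  have cnt : ∀ (y : B) (A : Set Ω), (∀ ω ∈ A, π (Φ s ω) = y) →
      (∀ ω ∈ A, ∀ ω' ∈ A, ω ≠ ω' → ∃ L : ℤ, ∀ l ≤ L, ∀ t, |t| < κ →
        Φ s (O ω' l) ≠ ψ t (Φ s (O ω l))) ∨ (∀ ω ∈ A, ∀ ω' ∈ A, ω ≠ ω' → ∃ L : ℤ, ∀ l,
        L ≤ l → ∀ t, |t| < κ → Φ s (O ω' l) ≠ ψ t (Φ s (O ω l))) →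
      A.Finite ∧ A.ncard ≤ ⌊1 / κ⌋₊ + 1 := by
    intro y A hA hsep
    refine fin_of_inj fun n p hp hpA => ?_
    have hl : ∃ l : ℤ, ∀ i j, i ≠ j → ∀ t, |t| < κ → Φ s (O (p j) l) ≠ ψ t (Φ s (O (p i) l)) := by
      rcases hsep with hsep | hsep
      · have hex : ∀ q : Fin n × Fin n, ∃ L : ℤ, q.1 ≠ q.2 → ∀ l ≤ L, ∀ t, |t| < κ →
            Φ s (O (p q.2) l) ≠ ψ t (Φ s (O (p q.1) l)) := by
          intro q
          by_cases hq : q.1 = q.2
          · exact ⟨0, fun hh => absurd hq hh⟩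
          · obtain ⟨L, hL⟩ := hsep _ (hpA q.1) _ (hpA q.2) fun hh => hq (hp hh)
            exact ⟨L, fun _ => hL⟩
        choose L hL using hex
        obtain ⟨l, hl⟩ := Finite.exists_ge L
        exact ⟨l, fun i j hij t ht => hL (i, j) hij l (hl _) t ht⟩
      · have hex : ∀ q : Fin n × Fin n, ∃ L : ℤ, q.1 ≠ q.2 → ∀ l, L ≤ l → ∀ t, |t| < κ →
            Φ s (O (p q.2) l) ≠ ψ t (Φ s (O (p q.1) l)) := by
          intro q
          by_cases hq : q.1 = q.2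
          · exact ⟨0, fun hh => absurd hq hh⟩
          · obtain ⟨L, hL⟩ := hsep _ (hpA q.1) _ (hpA q.2) fun hh => hq (hp hh)
            exact ⟨L, fun _ => hL⟩
        choose L hL using hex
        obtain ⟨l, hl⟩ := Finite.exists_le L
        exact ⟨l, fun i j hij t ht => hL (i, j) hij l (hl _) t ht⟩
    obtain ⟨l, hl⟩ := hl
    refine circ_count h.top hκ (fun i => Φ s (O (p i) l)) (fun i j => ?_) hl
    exact (h.orb.eq _ _).1 (hfib _ _ (by rw [hA _ (hpA i), hA _ (hpA j)]) l)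
  refine ⟨2 * (⌊1 / κ⌋₊ + 1), fun y => ?_⟩
  have c1 := cnt y {ω | π (Φ s ω) = y ∧ 0 ≤ α ω} (fun ω hω => hω.1) (Or.inl
    fun ω hω ω' hω' hne => sepP (O ω) (O ω') (hO1 ω) (hO1 ω') (by rw [hO0]; exact hω.2)
      (by rw [hO0]; exact hω'.2) fun hh => hne (hOinj _ _ hh))
  have c2 := cnt y {ω | π (Φ s ω) = y ∧ α ω < 0} (fun ω hω => hω.1) (Or.inr
    fun ω hω ω' hω' hne => sepM (O ω) (O ω') (hO1 ω) (hO1 ω') (by rw [hO0]; exact hω.2)
      (by rw [hO0]; exact hω'.2) fun hh => hne (hOinj _ _ hh))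
  have hun : {ω | π (Φ s ω) = y} = {ω | π (Φ s ω) = y ∧ 0 ≤ α ω} ∪
      {ω | π (Φ s ω) = y ∧ α ω < 0} := by
    ext ω
    constructor
    · intro hω
      rcases le_or_gt 0 (α ω) with h1 | h1
      · exact Or.inl ⟨hω, h1⟩
      · exact Or.inr ⟨hω, h1⟩
    · rintro (hω | hω)
      · exact hω.1
      · exact hω.1
  rw [hun]
  refine ⟨c1.1.union c2.1, ?_⟩
  have := Set.ncard_union_le {ω | π (Φ s ω) = y ∧ 0 ≤ α ω} {ω | π (Φ s ω) = y ∧ α ω < 0}
  have g1 := c1.2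
  have g2 := c2.2
  omega

end DG

end

end Pool.Agent.V5helper25.TG
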