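import Pool.Agent.V5helper25.TG.Base
import Mathlib.Topology.ContinuousMap.SecondCountableSpace

/-!
# MP_4a0782, circle extensions over hyperbolic bases: condensation of the conjugacies
-/

set_option autoImplicit false
set_option linter.unusedSectionVars false

open scoped Topology
open Filter Set Metric

universe u v

namespace Pool.Agent.V5helper25.TG

open Pool.Agent.TH80.OMS Pool.Agent.N813.CX Pool.Agent.N813.CX.CLOS Pool.Agent.V5helper25.TK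

section

variable {N : Type u} [MetricSpace N] [CompactSpace N] {B : Type v} [MetricSpace B] {F : N ≃ₜ N}
  {ψ : ℝ → N → N} {a : N → ℝ → ℝ} {π : N → B} {f : B → B} {θ₀ : ℝ} {S : N → ℝ → ℝ} {e : ℝ}
  {Ω : Type u} [MetricSpace Ω] [CompactSpace Ω] {R : Ω ≃ₜ Ω} {Φ : Pm θ₀ → C(Ω, N)}

/-- separated families are countable -/
theorem sep_countable (Φ : Pm θ₀ → C(Ω, N)) {ε : ℝ} (hε : 0 < ε) :
    {s : Pm θ₀ | ∀ s' : Pm θ₀, (s : ℝ) < s' → (s' : ℝ) < s + ε → ε ≤ dist (Φ s') (Φ s)}.Countable ∧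
    {s : Pm θ₀ | ∀ s' : Pm θ₀, (s' : ℝ) < s → (s : ℝ) - ε < s' → ε ≤ dist (Φ s') (Φ s)}.Countable
    := by
  have key : ∀ A : Set (Pm θ₀), (∀ s ∈ A, ∀ s' ∈ A, s ≠ s' →
      ε ≤ dist ((s : ℝ), Φ s) ((s' : ℝ), Φ s')) → A.Countable := by
    intro A hA
    have h1 : A.PairwiseDisjoint fun s => ball ((s : ℝ), Φ s) (ε / 2) := by
      intro s hs s' hs' hne
      refine Set.disjoint_left.2 fun g hg hg' => ?_
      rw [mem_ball] at hg hg'
      have h2 := dist_triangle_left ((s : ℝ), Φ s) ((s' : ℝ), Φ s') g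
      have h3 := hA s hs s' hs' hne
      linarith
    exact h1.countable_of_isOpen (fun _ _ => isOpen_ball)
      fun s _ => ⟨_, mem_ball_self (by linarith)⟩
  constructor
  · refine key _ fun s hs s' hs' hne => ?_
    rw [Prod.dist_eq]
    rcases lt_or_gt_of_ne (fun hh => hne (Subtype.ext hh) : (s : ℝ) ≠ s') with h1 | h1
    · by_cases h2 : (s' : ℝ) < s + ε
      · exact (hs s' h1 h2).trans (by rw [dist_comm]; exact le_max_right _ _)
      · refine le_trans ?_ (le_max_left _ _)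
        show ε ≤ dist (s : ℝ) s'
        rw [dist_comm, Real.dist_eq]
        exact (le_abs_self _).trans' (by linarith)
    · by_cases h2 : (s : ℝ) < s' + ε
      · exact (hs' s h1 h2).trans (le_max_right _ _)
      · refine le_trans ?_ (le_max_left _ _)
        show ε ≤ dist (s : ℝ) s'
        rw [Real.dist_eq]
        exact (le_abs_self _).trans' (by linarith)
  · refine key _ fun s hs s' hs' hne => ?_
    rw [Prod.dist_eq]
    rcases lt_or_gt_of_ne (fun hh => hne (Subtype.ext hh) : (s : ℝ) ≠ s') with h1 | h1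
    · by_cases h2 : (s' : ℝ) - ε < s
      · exact (hs' s h1 h2).trans (le_max_right _ _)
      · refine le_trans ?_ (le_max_left _ _)
        show ε ≤ dist (s : ℝ) s'
        rw [dist_comm, Real.dist_eq]
        exact (le_abs_self _).trans' (by linarith)
    · by_cases h2 : (s : ℝ) - ε < s'
      · exact (hs s' h1 h2).trans (by rw [dist_comm]; exact le_max_right _ _)
      · refine le_trans ?_ (le_max_left _ _)
        show ε ≤ dist (s : ℝ) s'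
        rw [Real.dist_eq]
        exact (le_abs_self _).trans' (by linarith)

/-- **Condensation.** -/
theorem cond (Φ : Pm θ₀ → C(Ω, N)) : ∃ E : Set ℝ, E.Countable ∧ ∀ s : Pm θ₀, (s : ℝ) ∉ E →
    ∀ ε : ℝ, 0 < ε → (∃ s' : Pm θ₀, (s : ℝ) < s' ∧ (s' : ℝ) < s + ε ∧ dist (Φ s') (Φ s) < ε) ∧
      ∃ s' : Pm θ₀, (s' : ℝ) < s ∧ (s : ℝ) - ε < s' ∧ dist (Φ s') (Φ s) < ε := by
  refine ⟨Subtype.val '' ⋃ n : ℕ,
    ({s : Pm θ₀ | ∀ s' : Pm θ₀, (s : ℝ) < s' → (s' : ℝ) < s + 1 / ((n : ℝ) + 1) →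
        1 / ((n : ℝ) + 1) ≤ dist (Φ s') (Φ s)} ∪
      {s : Pm θ₀ | ∀ s' : Pm θ₀, (s' : ℝ) < s → (s : ℝ) - 1 / ((n : ℝ) + 1) < s' →
        1 / ((n : ℝ) + 1) ≤ dist (Φ s') (Φ s)}), ?_, ?_⟩
  · refine (countable_iUnion fun n => ?_).image _
    have := sep_countable Φ (Nat.one_div_pos_of_nat (α := ℝ) (n := n))
    exact this.1.union this.2
  · intro s hs ε hε
    obtain ⟨n, hn⟩ := exists_nat_one_div_lt hε
    have hs1 : s ∉ {s : Pm θ₀ | ∀ s' : Pm θ₀, (s : ℝ) < s' → (s' : ℝ) < s + 1 / ((n : ℝ) + 1) →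
        1 / ((n : ℝ) + 1) ≤ dist (Φ s') (Φ s)} := by
      intro hh
      exact hs ⟨s, mem_iUnion.2 ⟨n, Or.inl hh⟩, rfl⟩
    have hs2 : s ∉ {s : Pm θ₀ | ∀ s' : Pm θ₀, (s' : ℝ) < s → (s : ℝ) - 1 / ((n : ℝ) + 1) < s' →
        1 / ((n : ℝ) + 1) ≤ dist (Φ s') (Φ s)} := by
      intro hh
      exact hs ⟨s, mem_iUnion.2 ⟨n, Or.inr hh⟩, rfl⟩
    simp only [mem_ofPred_eq] at hs1 hs2
    push Not at hs1 hs2
    obtain ⟨s', a1, a2, a3⟩ := hs1
    obtain ⟨s'', b1, b2, b3⟩ := hs2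
    exact ⟨⟨s', a1, by linarith, by linarith⟩, ⟨s'', b1, by linarith, by linarith⟩⟩

/-- shifts: `Φ s'` is a small rotation of `Φ s` -/
structure Shf (ψ : ℝ → N → N) (Φ : Pm θ₀ → C(Ω, N)) (s s' : Pm θ₀) (ρ : ℝ) (α : Ω → ℝ) :
    Prop where
  small : ∀ ω, |α ω| < ρ
  eq : ∀ ω, Φ s' ω = ψ (α ω) (Φ s ω)

namespace DG

variable (h : DG F ψ a π f θ₀ S e R Φ)

include h

/-- the projections of the conjugacies coincide if they are close -/
theorem base_eq {s s' : Pm θ₀} {ω ω' : Ω}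
    (hd : ∀ i : ℤ, dist (π (Φ s (((R.toEquiv : Equiv.Perm Ω) ^ i) ω)))
      (π (Φ s' (((R.toEquiv : Equiv.Perm Ω) ^ i) ω'))) < e) : π (Φ s ω) = π (Φ s' ω') := by
  have hz : ∀ (ω : Ω) (i : ℤ), R (((R.toEquiv : Equiv.Perm Ω) ^ i) ω) =
      ((R.toEquiv : Equiv.Perm Ω) ^ (i + 1)) ω := by
    intro ω i
    rw [add_comm, zpow_add, zpow_one, Equiv.Perm.mul_apply]
    rfl
  have hf : ∀ (s : Pm θ₀) (ω : Ω) (i : ℤ), f (π (Φ s (((R.toEquiv : Equiv.Perm Ω) ^ i) ω))) =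
      π (Φ s (((R.toEquiv : Equiv.Perm Ω) ^ (i + 1)) ω)) := by
    intro s ω i
    rw [← hz, ← h.conj, (orbR h.orb (s : ℝ)).semi]
  have h1 := h.exp (fun i => π (Φ s (((R.toEquiv : Equiv.Perm Ω) ^ i) ω)))
    (fun i => π (Φ s' (((R.toEquiv : Equiv.Perm Ω) ^ i) ω'))) (fun i => h.base _ _)
    (fun i => h.base _ _) (hf s ω) (hf s' ω') hd
  have h2 := congrFun h1 0
  simpa using h2

/-- close conjugacies differ by small rotations -/
theorem shift_of {ρ : ℝ} (hρ : 0 < ρ) : ∃ ε : ℝ, 0 < ε ∧ ∀ s s' : Pm θ₀,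
    dist (Φ s') (Φ s) < ε → ∃ α : Ω → ℝ, Shf ψ Φ s s' ρ α := by
  obtain ⟨δ₁, hδ₁, H1⟩ := u1 h.top ρ hρ
  obtain ⟨δ₂, hδ₂, H2⟩ := Metric.uniformContinuous_iff.1
    (CompactSpace.uniformContinuous_of_continuous h.orb.cont) e h.epos
  refine ⟨min δ₁ δ₂, lt_min hδ₁ hδ₂, fun s s' hss => ?_⟩
  have hd : ∀ ω, dist (Φ s' ω) (Φ s ω) < min δ₁ δ₂ := fun ω =>
    (ContinuousMap.dist_apply_le_dist ω).trans_lt hss
  have hb : ∀ ω, π (Φ s ω) = π (Φ s' ω) := fun ω => h.base_eq fun i => H2 (by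
    rw [dist_comm]
    exact (hd _).trans_le (min_le_right _ _))
  have hex : ∀ ω, ∃ t, |t| < ρ ∧ Φ s' ω = ψ t (Φ s ω) := by
    intro ω
    obtain ⟨t, ht⟩ := (h.orb.eq _ _).1 (hb ω)
    obtain ⟨σ, hσ, hσ'⟩ := H1 (Φ s ω) t (by rw [← ht]; exact (hd ω).trans_le (min_le_left _ _))
    exact ⟨σ, hσ, by rw [ht, hσ']⟩
  choose α h1 h2 using hex
  exact ⟨α, h1, h2⟩

/-- **Evolution of the positions.** -/
theorem evo {δa : ℝ} (hδa : ∀ (v : N) (t : ℝ), |t| < δa → |a v t| < 1 / 4) {s s' : Pm θ₀}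
    (hss : |(s' : ℝ) - s| < 1 / 4) {ω ω' : Ω} {γ γ' : ℝ} (h1 : Φ s' ω' = ψ γ (Φ s ω))
    (h2 : Φ s' (R ω') = ψ γ' (Φ s (R ω))) (hγ : |γ| < δa) (hγ' : |γ'| < 1 / 4) :
    γ' = (s' : ℝ) - s + a (Φ s ω) γ := by
  have e1 : Φ s' (R ω') = ψ ((s' : ℝ) - s + a (Φ s ω) γ) (Φ s (R ω)) := by
    rw [← h.conj, ← h.conj, h1, Rt_ext h.top]
    show _ = ψ ((s' : ℝ) - s + a (Φ s ω) γ) (ψ s (F (Φ s ω)))
    rw [← h.top.add]
    congr 1
    ring
  rw [h2] at e1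
  obtain ⟨j, hj⟩ := (psi_eq h.top _ _ _).1 e1
  have h3 := hδa (Φ s ω) γ hγ
  obtain ⟨a1, a2⟩ := abs_lt.1 hss
  obtain ⟨b1, b2⟩ := abs_lt.1 hγ'
  obtain ⟨c1, c2⟩ := abs_lt.1 h3
  have d1 : (j : ℝ) < 1 := by linarith
  have d2 : (-1 : ℝ) < j := by linarith
  have f1 : j < 1 := by exact_mod_cast d1
  have f2 : -1 < j := by exact_mod_cast d2
  have f3 : j = 0 := by omega
  rw [hj, f3]
  simp

end DG

end

end Pool.Agent.V5helper25.TG
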