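import Pool.Agent.V5helper25.TG.Main

/-!
# MP_4a0782, circle extensions with constant number of periodic points over bases which are expansive on
their nonwandering sets
-/

set_option autoImplicit false

open scoped Manifold ContDiff Topology
open Filter Set Metric

universe u v

namespace Pool.Agent.V5helper25.TG

open Pool.Agent.H718R2.G Pool.Agent.W564.SC Pool.Agent.TH80.OMS Pool.Agent.TH290.CL
  Pool.Agent.N813.OF Pool.Agent.N813.CX Pool.Agent.N813.CX.CLOS Pool.Agent.V5helper25.TK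

section

variable {N : Type u} [MetricSpace N] [CompactSpace N] {B : Type v} [MetricSpace B] {F : N ≃ₜ N}
  {ψ : ℝ → N → N} {a : N → ℝ → ℝ} {π : N → B} {f : B → B} {θ₀ : ℝ} {K : ℕ} {S : N → ℝ → ℝ}

/-- **The theorem, for homeomorphisms.** -/
theorem finalK (h : TD F ψ a π f θ₀ K S) (hK : 0 < K) (hexp : ExpansiveOn f (Omega f))
    (clos : ClosingProp f)
    (hconj : ∀ s, |s| < θ₀ → OmegaConj F (Rt F ψ s)) (hd : Omega F ⊆ closure (Per F)) :
    (∃ g : Omega F → closure (Per f), IsCoveringMap g ∧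
      (∀ x y : Omega F, F x = y → (g y : B) = f (g x)) ∧ ∀ y, {x | g x = y}.ncard = K) ∧
    ∃ E : Set ℝ, E.Countable ∧ ∀ s, |s| < θ₀ → s ∉ E → ∀ y ∈ closure (Per f),
      {x | x ∈ Omega (Rt F ψ s) ∧ π x = y}.ncard = K := by
  have : CompactSpace (Omega (F : N → N)) := isCompact_iff_compactSpace.1 (om_closed _).isCompact
  have : CompactSpace B := ⟨by
    rw [← h.orb.surj.range_eq]
    exact isCompact_range h.orb.cont⟩
  obtain ⟨We, hWe1, hWe2, hWe3⟩ := hexp
  obtain ⟨e, he, hWe⟩ := diag_nhds hWe1 hWe2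
  have hex : ∀ s : {s : ℝ // |s| < θ₀}, ∃ c : Omega (F : N → N) ≃ₜ Omega (Rt F ψ s),
      ∀ x y : Omega (F : N → N), F x = y → Rt F ψ s (c x) = c y := fun s => hconj s s.2
  choose c hc using hex
  obtain ⟨Φ, hΦ⟩ : ∃ Φ : {s : ℝ // |s| < θ₀} → C(Omega (F : N → N), B),
      ∀ s x, Φ s x = π (c s x) := ⟨fun s => ⟨fun x => π (c s x),
        h.orb.cont.comp (continuous_subtype_val.comp (c s).continuous)⟩, fun s x => rfl⟩
  have hmemΦ : ∀ s x, Φ s x ∈ Omega f := by
    intro s x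
    have h1 : ((c s x : Omega (Rt F ψ s)) : N) ∈ closure (Per (Rt F ψ s)) := by
      rw [← om_eq h hconj hd s.2]
      exact (c s x).2
    rw [hΦ, ← om_base f clos]
    exact map_mem_closure h.orb.cont h1 fun w hw => per_base h.orb hw
  have semi : ∀ s, ∀ x y : Omega (F : N → N), F x = y → Φ s y = f (Φ s x) := by
    intro s x y hxy
    rw [hΦ, hΦ, ← hc s x y hxy]
    exact (orbR h.orb (s : ℝ)).semi _
  -- the maps are separated
  have sep : ∀ s s', (∀ x, dist (Φ s x) (Φ s' x) < e) → Φ s = Φ s' := by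
    intro s s' hss
    ext x
    let z : ℤ → Omega (F : N → N) := fun i =>
      ⟨((F.toEquiv : Equiv.Perm N) ^ i) x, om_zpow F x.2 i⟩
    have hz : ∀ i, F (z i) = z (i + 1) := by
      intro i
      show F (((F.toEquiv : Equiv.Perm N) ^ i) x) = ((F.toEquiv : Equiv.Perm N) ^ (i + 1)) x
      rw [add_comm, zpow_add, zpow_one, Equiv.Perm.mul_apply]
      rfl
    have h1 := hWe3 (fun i => Φ s (z i)) (fun i => Φ s' (z i)) (fun i => hmemΦ _ _)
      (fun i => hmemΦ _ _) (fun i => (semi s _ _ (hz i)).symm) (fun i => (semi s' _ _ (hz i)).symm)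
      fun i => hWe _ _ (hss (z i))
    have h2 := congrFun h1 0
    have h3 : z 0 = x := by
      apply Subtype.ext
      show ((F.toEquiv : Equiv.Perm N) ^ (0 : ℤ)) x = x
      rw [zpow_zero]
      rfl
    rwa [h3] at h2
  have hrange : (Set.range Φ).Countable := by
    have h1 : (Set.range Φ).PairwiseDisjoint fun g => ball g (e / 2) := by
      rintro _ ⟨s, rfl⟩ _ ⟨s', rfl⟩ hne
      refine Set.disjoint_left.2 fun g hg hg' => hne (sep s s' fun x => ?_)
      have h2 : dist (Φ s) (Φ s') < e := by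
        rw [mem_ball] at hg hg'
        have := dist_triangle_left (Φ s) (Φ s') g
        linarith
      exact (ContinuousMap.dist_lt_iff he).1 h2 x
    exact h1.countable_of_isOpen (fun _ _ => isOpen_ball)
      fun g _ => ⟨g, mem_ball_self (by linarith)⟩
  obtain ⟨E, hE⟩ : ∃ E : Set ℝ, E = {s | ∃ hs : |s| < θ₀,
      {s' | Φ s' = Φ ⟨s, hs⟩}.Countable} := ⟨_, rfl⟩
  have hEc : E.Countable := by
    have h1 : (⋃ g ∈ Set.range Φ, {s' | Φ s' = g ∧ {s'' | Φ s'' = g}.Countable}).Countable := by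
      refine hrange.biUnion fun g _ => ?_
      by_cases hg : {s'' | Φ s'' = g}.Countable
      · exact hg.mono fun s' hs' => hs'.1
      · have : {s' | Φ s' = g ∧ {s'' | Φ s'' = g}.Countable} = ∅ := by
          ext s'
          simp only [mem_ofPred_eq, mem_empty_iff_false, iff_false]
          exact fun hh => hg hh.2
        rw [this]
        exact countable_empty
    refine (h1.image Subtype.val).mono ?_
    rw [hE]
    rintro s ⟨hs, hs'⟩
    refine ⟨⟨s, hs⟩, ?_, rfl⟩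
    simp only [mem_iUnion]
    exact ⟨Φ ⟨s, hs⟩, ⟨_, rfl⟩, rfl, hs'⟩
  -- the number of points
  have tr : ∀ (s : {s : ℝ // |s| < θ₀}) (y : B),
      {x | x ∈ Omega (Rt F ψ s) ∧ π x = y} = (fun wo => ((c s wo : Omega (Rt F ψ s)) : N)) ''
        {wo | Φ s wo = y} := by
    intro s y
    ext x
    constructor
    · rintro ⟨hx1, hx2⟩
      refine ⟨(c s).symm ⟨x, hx1⟩, ?_, ?_⟩
      · show Φ s ((c s).symm ⟨x, hx1⟩) = y
        rw [hΦ, (c s).apply_symm_apply]
        exact hx2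
      · show ((c s ((c s).symm ⟨x, hx1⟩) : Omega (Rt F ψ s)) : N) = x
        rw [(c s).apply_symm_apply]
    · rintro ⟨wo, hwo, rfl⟩
      refine ⟨(c s wo).2, ?_⟩
      rw [← hΦ]
      exact hwo
  have trc : ∀ (s : {s : ℝ // |s| < θ₀}) (y : B),
      {x | x ∈ Omega (Rt F ψ s) ∧ π x = y}.ncard = {wo | Φ s wo = y}.ncard := by
    intro s y
    rw [tr, Set.ncard_image_of_injective]
    exact Subtype.val_injective.comp (c s).injective
  have count : ∀ s : {s : ℝ // |s| < θ₀}, (s : ℝ) ∉ E → ∀ y ∈ closure (Per f),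
      {x | x ∈ Omega (Rt F ψ s) ∧ π x = y}.ncard = K := by
    intro s hs y hy
    obtain ⟨v₀, rfl⟩ := h.orb.surj y
    have hbad : {s' : {s : ℝ // |s| < θ₀} | ∃ r : ℚ, ψ r v₀ ∈ Cl F ψ s'}.Countable := by
      have h1 : {s' : {s : ℝ // |s| < θ₀} | ∃ r : ℚ, ψ r v₀ ∈ Cl F ψ s'} =
          ⋃ r : ℚ, {s' : {s : ℝ // |s| < θ₀} | ψ r v₀ ∈ Cl F ψ s'} := by
        ext s'
        simp
      rw [h1]
      refine countable_iUnion fun r => Set.Subsingleton.countable ?_
      intro s₁ h1 s₂ h2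
      exact Subtype.ext (h.cl_disj s₁.2 s₂.2 h1 h2)
    have hunc : ¬ {s' | Φ s' = Φ s}.Countable := fun hh => hs (by rw [hE]; exact ⟨s.2, hh⟩)
    obtain ⟨s', hs1, hs2⟩ : ∃ s', Φ s' = Φ s ∧ ∀ r : ℚ, ψ r v₀ ∉ Cl F ψ s' := by
      by_contra hcon
      push Not at hcon
      exact hunc (hbad.mono fun s' hs' => hcon s' hs')
    have h2 := h.exact hK s'.2 hy hs2
    rw [← om_eq h hconj hd s'.2, trc, hs1] at h2
    rw [trc]
    exact h2
  have hunI : ¬ (Ioo (-θ₀) θ₀).Countable := by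
    intro hc
    have h1 := Cardinal.le_aleph0_iff_set_countable.2 hc
    rw [Cardinal.mk_Ioo_real (by linarith [h.pos])] at h1
    exact absurd h1 (not_le.2 Cardinal.aleph0_lt_continuum)
  obtain ⟨s₀, hs₀, hs₀E⟩ : ∃ s₀ : ℝ, |s₀| < θ₀ ∧ s₀ ∉ E := by
    by_contra hcon
    push Not at hcon
    exact hunI (hEc.mono fun s hs => hcon s (abs_lt.2 hs))
  -- the good parameter
  obtain ⟨σ, hσ⟩ : ∃ σ : {s : ℝ // |s| < θ₀}, (σ : ℝ) = s₀ := ⟨⟨s₀, hs₀⟩, rfl⟩
  obtain ⟨γ, hγ⟩ : ∃ γ, γ = θ₀ - |(σ : ℝ)| := ⟨_, rfl⟩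
  have hγ0 : 0 < γ := by rw [hγ]; linarith [σ.2]
  have hO := om_eq h hconj hd σ.2
  have cnt : ∀ y ∈ closure (Per f), {x | x ∈ closure (Per (Rt F ψ σ)) ∧ π x = y}.ncard = K := by
    intro y hy
    rw [← hO]
    exact count σ (by rwa [hσ]) y hy
  have hmem : ∀ wo, ((c σ wo : Omega (Rt F ψ σ)) : N) ∈ closure (Per (Rt F ψ σ)) := by
    intro wo
    rw [← hO]
    exact (c σ wo).2
  have hsub : ∀ x ∈ closure (Per (Rt F ψ σ)), π x ∈ closure (Per f) := fun x hx =>
    map_mem_closure h.orb.cont hx fun w hw => per_base h.orb hw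
  have gapP : ∀ x x', x ∈ closure (Per (Rt F ψ σ)) → x' ∈ closure (Per (Rt F ψ σ)) →
      π x = π x' → x ≠ x' → ∃ t ∈ Icc γ (1 - γ), x' = ψ t x := by
    intro x x' hx hx' hxx hne
    rw [hγ]
    exact h.exact_gap hK σ.2 (hsub x hx) (cnt _ (hsub x hx)) ⟨hx, rfl⟩ ⟨hx', hxx.symm⟩ hne
  obtain ⟨δ, hδ, hδ'⟩ := u1 h.top γ hγ0
  have close : ∀ x x', x ∈ closure (Per (Rt F ψ σ)) → x' ∈ closure (Per (Rt F ψ σ)) →
      π x = π x' → dist x' x < δ → x = x' := by
    intro x x' hx hx' hxx hd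
    by_contra hne
    obtain ⟨t, ht, rfl⟩ := gapP x x' hx hx' hxx hne
    obtain ⟨ρ, hρ, hρ'⟩ := hδ' x t hd
    obtain ⟨j, hj⟩ := (psi_eq h.top _ _ _).1 hρ'
    obtain ⟨r1, r2⟩ := abs_lt.1 hρ
    have l1 : (0 : ℝ) < j := by linarith [ht.1]
    have l2 : (j : ℝ) < 1 := by linarith [ht.2]
    have m1 : 0 < j := by exact_mod_cast l1
    have m2 : j < 1 := by exact_mod_cast l2
    omega
  refine ⟨?_, E, hEc, fun s hs hsE y hy => count ⟨s, hs⟩ hsE y hy⟩
  · have hsub' : ∀ wo, Φ σ wo ∈ closure (Per f) := by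
      intro wo
      rw [hΦ]
      exact hsub _ (hmem wo)
    obtain ⟨g, hg⟩ : ∃ g : Omega (F : N → N) → closure (Per f), ∀ wo, (g wo : B) = Φ σ wo :=
      ⟨fun wo => ⟨Φ σ wo, hsub' wo⟩, fun wo => rfl⟩
    have hgc : Continuous g := by
      rw [continuous_induced_rng]
      have : (Subtype.val ∘ g) = Φ σ := funext hg
      rw [this]
      exact (Φ σ).continuous
    refine ⟨g, ?_, fun x y hxy => by rw [hg, hg]; exact semi σ x y hxy, fun y => ?_⟩
    · have hopen : IsOpenMap g := by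
        intro U hU
        rw [isOpen_iff_forall_mem_open]
        rintro _ ⟨x₀, hx₀, rfl⟩
        obtain ⟨Uo, hUo, hUo'⟩ := isOpen_induced_iff.1 (hU.preimage (c σ).symm.continuous)
        have hUm : ∀ q : Omega (Rt F ψ σ), (q : N) ∈ Uo ↔ (c σ).symm q ∈ U := by
          intro q
          have : q ∈ (Subtype.val ⁻¹' Uo : Set (Omega (Rt F ψ σ))) ↔ q ∈ (c σ).symm ⁻¹' U := by
            rw [hUo']
          exact this
        have hVo : IsOpen {e : Fin K → N | ∃ i, e i ∈ Uo} := by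
          have : {e : Fin K → N | ∃ i, e i ∈ Uo} =
              ⋃ i, (fun e : Fin K → N => e i) ⁻¹' Uo := by
            ext e
            simp
          rw [this]
          exact isOpen_iUnion fun i => hUo.preimage (continuous_apply i)
        have hD : IsClosed (TD.Tup F ψ K (σ : ℝ) γ ∩ {e : Fin K → N | ∃ i, e i ∈ Uo}ᶜ) :=
          (h.tup_closed _ _).inter hVo.isClosed_compl
        have hP : IsClosed ((fun e : Fin K → N => π (e ⟨0, hK⟩)) ''
            (TD.Tup F ψ K (σ : ℝ) γ ∩ {e : Fin K → N | ∃ i, e i ∈ Uo}ᶜ)) :=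
          (hD.isCompact.image (h.orb.cont.comp (continuous_apply _))).isClosed
        refine ⟨{y | (y : B) ∉ (fun e : Fin K → N => π (e ⟨0, hK⟩)) ''
            (TD.Tup F ψ K (σ : ℝ) γ ∩ {e : Fin K → N | ∃ i, e i ∈ Uo}ᶜ)}, ?_, ?_, ?_⟩
        · intro y hy
          obtain ⟨e, he, hey⟩ := h.lower hK σ.2 y.2
          rw [← hγ] at he
          have hV : ∃ i, e i ∈ Uo := by
            by_contra hcon
            exact hy ⟨e, ⟨he, hcon⟩, hey⟩
          obtain ⟨i, hi⟩ := hV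
          have hi' : e i ∈ Omega (Rt F ψ σ) := by
            rw [hO]
            exact he.1 i
          refine ⟨(c σ).symm ⟨e i, hi'⟩, (hUm ⟨e i, hi'⟩).1 hi, Subtype.ext ?_⟩
          rw [hg, hΦ, (c σ).apply_symm_apply]
          exact (h.tup_pi hK he i).trans hey
        · exact hP.isOpen_compl.preimage continuous_subtype_val
        · rintro ⟨e, ⟨he, heV⟩, hey⟩
          have hr := h.tup_range hK hγ0 (cnt _ (g x₀).2) he hey
          have hx : ((c σ x₀ : Omega (Rt F ψ σ)) : N) ∈ Set.range e := by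
            rw [hr]
            exact ⟨hmem x₀, by rw [hg, hΦ]⟩
          obtain ⟨i, hi⟩ := hx
          refine heV ⟨i, ?_⟩
          rw [hi, hUm, (c σ).symm_apply_apply]
          exact hx₀
      refine isLocalHomeomorph_iff_isCoveringMap.1
        (isLocalHomeomorph_iff_isOpenEmbedding_restrict.2 fun x => ?_)
      obtain ⟨U, hU⟩ : ∃ U : Set (Omega (F : N → N)), U =
          {wo | dist ((c σ wo : Omega (Rt F ψ σ)) : N) (c σ x) < δ / 2} := ⟨_, rfl⟩
      have hUo : IsOpen U := by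
        rw [hU]
        exact isOpen_lt ((continuous_subtype_val.comp (c σ).continuous).dist continuous_const)
          continuous_const
      refine ⟨U, hUo.mem_nhds ?_, ?_⟩
      · rw [hU]
        show dist ((c σ x : Omega (Rt F ψ σ)) : N) (c σ x) < δ / 2
        rw [dist_self]
        linarith
      · refine Topology.IsOpenEmbedding.of_continuous_injective_isOpenMap
          (hgc.comp continuous_subtype_val) ?_ (hopen.restrict hUo)
        rintro ⟨wo, hwo⟩ ⟨wo', hwo'⟩ hgg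
        have hgg' : g wo = g wo' := hgg
        rw [hU] at hwo hwo'
        have hwo1 : dist ((c σ wo : Omega (Rt F ψ σ)) : N) (c σ x) < δ / 2 := hwo
        have hwo2 : dist ((c σ wo' : Omega (Rt F ψ σ)) : N) (c σ x) < δ / 2 := hwo'
        have hd' : dist ((c σ wo' : Omega (Rt F ψ σ)) : N) (c σ wo) < δ := by
          have := dist_triangle_right ((c σ wo' : Omega (Rt F ψ σ)) : N) (c σ wo) (c σ x)
          linarith
        have e1 : π (c σ wo) = π (c σ wo') := by
          rw [← hΦ, ← hΦ, ← hg, ← hg, hgg']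
        have e2 := close _ _ (hmem wo) (hmem wo') e1 hd'
        exact Subtype.ext ((c σ).injective (Subtype.ext e2))
    · have h1 := count σ (by rwa [hσ]) y y.2
      rw [trc] at h1
      rw [← h1]
      congr 1
      ext wo
      show g wo = y ↔ Φ σ wo = y
      rw [← hg]
      exact Subtype.ext_iff

end

section

variable {n : ℕ} {N : Type u} [TopologicalSpace N] [T2Space N] [CompactSpace N]
  [ChartedSpace (V n) N] [IsManifold (𝓡 n) ∞ N] {r : ℕ∞}

/-- **The smooth theorem.** -/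
theorem mainK (hr : 1 ≤ r) (F : DiffM n N r) (hF : OmegaStable n N r F) (ψ : ℝ → N → N)
    (h : CircleExt n N F ψ) (B : Type v) [MetricSpace B] (π : N → B) (f : B → B)
    (hπ : OrbitMap F ψ π f) (hf : ClosingProp f) (he : ExpansiveOn f (Omega f))
    (K : ℕ) (hK : 0 < K)
    (hcount : ∀ y ∈ Per f, {v | v ∈ Per F ∧ π v = y}.ncard = K) :
    (∃ g : Omega F → Omega f, IsCoveringMap g ∧
      (∀ x y : Omega F, F x = y → (g y : B) = f (g x)) ∧ ∀ y, {x | g x = y}.ncard = K) ∧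
    ∃ θ : ℝ, 0 < θ ∧ ∃ E : Set ℝ, E.Countable ∧ ∀ s, |s| < θ → s ∉ E → ∀ y ∈ Omega f,
      {x | x ∈ Omega (fun z => ψ s (F z)) ∧ π x = y}.ncard = K := by
  have : SecondCountableTopology N := ChartedSpace.secondCountable_of_sigmaCompact (V n) N
  let _ : MetricSpace N := TopologicalSpace.metrizableSpaceMetric N
  obtain ⟨a, H, θ₀, hH⟩ := exists_rotFam hr F hF ψ h
  have hHe : ∀ s, (H s : N → N) = Rt F ψ s := fun s => funext fun y => hH.eq s y
  have hex : ∀ v : N, ∃ S : ℝ → ℝ, π v ∈ Per f → SF S θ₀ ∧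
      (∀ t u, t ≤ u → S u - S t ≤ u - t) ∧
      ∀ s, |s| < θ₀ → ∀ t, (ψ t v ∈ Per (Rt F ψ s) ↔ S t = s) := by
    intro v
    by_cases hv : π v ∈ Per f
    · obtain ⟨S, h1, h2, h3⟩ := exS hr hH hπ v hv
      refine ⟨S, fun _ => ⟨h1, h2, fun s hs t => ?_⟩⟩
      rw [← hHe]
      exact h3 s hs t
    · exact ⟨fun _ => 0, fun hh => absurd hh hv⟩
  choose S hS using hex
  have hR0 : Rt (F : N → N) ψ 0 = F := funext fun y => hH.top.zero (F y)
  have hTD : TD F.toHomeomorph ψ a π f θ₀ K S := by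
    refine ⟨hH.top, hπ, hf, hH.pos, fun v hv => (hS v hv).1, fun v hv => (hS v hv).2.2,
      fun v hv s hs => ?_, fun v hv => (hS v hv).2.1⟩
    have h0 : |(0 : ℝ)| < θ₀ := by rw [abs_zero]; exact hH.pos
    rw [(hS v hv).1.card_eq hs h0, ← hcount (π v) hv]
    have himg : {w | w ∈ Per F ∧ π w = π v} = (fun t => ψ t v) '' Z (S v) 0 := by
      ext w
      constructor
      · rintro ⟨hw1, hw2⟩
        obtain ⟨t, rfl⟩ := (hπ.eq _ _).1 hw2.symm
        have hw3 : ψ (Int.fract t) v ∈ Per (Rt F ψ 0) := by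
          rw [hR0, psi_fract hH.top]
          exact hw1
        exact ⟨Int.fract t, ⟨⟨Int.fract_nonneg t, Int.fract_lt_one t⟩,
          ((hS v hv).2.2 0 h0 _).1 hw3⟩, psi_fract hH.top t v⟩
      · rintro ⟨t, ht, rfl⟩
        have hw3 := ((hS v hv).2.2 0 h0 t).2 ht.2
        rw [hR0] at hw3
        exact ⟨hw3, ((hπ.eq v (ψ t v)).2 ⟨t, rfl⟩).symm⟩
    rw [himg, Set.InjOn.ncard_image]
    intro t ht t' ht' htt
    obtain ⟨j, hj⟩ := (psi_eq hH.top _ _ _).1 htt
    have l1 : (j : ℝ) < 1 := by linarith [ht.1.2, ht'.1.1]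
    have l2 : (-1 : ℝ) < j := by linarith [ht.1.1, ht'.1.2]
    have m1 : j < 1 := by exact_mod_cast l1
    have m2 : -1 < j := by exact_mod_cast l2
    have hj0 : j = 0 := by omega
    rw [hj, hj0]
    simp
  have hconj : ∀ s, |s| < θ₀ → OmegaConj F.toHomeomorph (Rt F.toHomeomorph ψ s) := by
    intro s hs
    have := hH.conj s hs
    rwa [hHe] at this
  have hd : Omega (F.toHomeomorph : N → N) ⊆ closure (Per F.toHomeomorph) :=
    dense hr hH B π f hπ hf
  have key := finalK hTD hK he hf hconj hd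
  rw [om_base f hf] at key
  obtain ⟨k2, E, hE, k3⟩ := key
  exact ⟨k2, θ₀, hH.pos, E, hE, k3⟩

end

end Pool.Agent.V5helper25.TG
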