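import Pool.Agent.V5helper25.TG.Cond

/-!
# MP_4a0782, circle extensions over hyperbolic bases: expansivity
-/

set_option autoImplicit false
set_option linter.unusedSectionVars false

open scoped Topology
open Filter Set Metric

universe u v

namespace Pool.Agent.V5helper25.TG

open Pool.Agent.TH80.OMS Pool.Agent.N813.CX Pool.Agent.N813.CX.CLOS Pool.Agent.V5helper25.TK

section

variable {N : Type u} [MetricSpace N] [CompactSpace N] {B : Type v} [MetricSpace B] {F : N ≃ₜ N}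
  {ψ : ℝ → N → N} {a : N → ℝ → ℝ} {π : N → B} {f : B → B} {θ₀ : ℝ} {S : N → ℝ → ℝ} {e : ℝ}
  {Ω : Type u} [MetricSpace Ω] [CompactSpace Ω] {R : Ω ≃ₜ Ω} {Φ : Pm θ₀ → C(Ω, N)}

namespace DG

variable (h : DG F ψ a π f θ₀ S e R Φ)

include h

theorem phi_iter (s : Pm θ₀) (ω : Ω) (i : ℕ) : Φ s (R^[i] ω) = (Rt F ψ s)^[i] (Φ s ω) := by
  induction i with
  | zero => rfl
  | succ i ih => rw [Function.iterate_succ_apply', Function.iterate_succ_apply', ← h.conj, ih]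

theorem pi_iter (s : Pm θ₀) (ω : Ω) (i : ℕ) : π (Φ s (R^[i] ω)) = f^[i] (π (Φ s ω)) := by
  rw [h.phi_iter, semi_iter (orbR h.orb (s : ℝ))]

/-- **Tracking of pseudo-orbits of `R`.** -/
theorem mlem (s : Pm θ₀) {δ : ℝ} (hδ : 0 < δ) :
    ∃ η : ℝ, 0 < η ∧ ∀ (z : B) (m : ℕ) (ζ : ℕ → Ω) (v : N), 1 ≤ m → f^[m] z = z →
      dist (ζ m) (ζ 0) < η → (∀ i < m, dist (R (ζ i)) (ζ (i + 1)) < η) →
      (∀ i ≤ m, dist (f^[i] z) (π (Φ s (ζ i))) < η) → π v = z → dist v (Φ s (ζ 0)) < η →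
      ∃ s' : ℝ, |s' - s| < δ ∧ v ∈ Per (Rt F ψ s') := by
  obtain ⟨η₁, hη₁, H1⟩ := ptrack (Rt_cont h.top (s : ℝ)) (topR h.top (s : ℝ))
    (orbR h.orb (s : ℝ)) hδ
  obtain ⟨η₂, hη₂, H2⟩ := Metric.uniformContinuous_iff.1
    (CompactSpace.uniformContinuous_of_continuous (Φ s).continuous) η₁ hη₁
  refine ⟨min η₁ η₂, lt_min hη₁ hη₂, fun z m ζ v hm hz hc hj hb hv hvd => ?_⟩
  have l1 := min_le_left η₁ η₂
  have l2 := min_le_right η₁ η₂
  obtain ⟨θ, hθ, hθ'⟩ := H1 z m (fun i => Φ s (ζ i)) v hm hz (H2 (hc.trans_le l2))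
    (fun i hi => by
      show dist (Rt F ψ s (Φ s (ζ i))) (Φ s (ζ (i + 1))) < η₁
      rw [h.conj]
      exact H2 ((hj i hi).trans_le l2)) (fun i hi => (hb i hi).trans_le l1) hv (hvd.trans_le l1)
  refine ⟨s + θ, by rwa [add_sub_cancel_left], ?_⟩
  have e1 : (fun y => ψ θ (Rt F ψ s y)) = Rt F ψ (s + θ) := by
    funext y
    show ψ θ (ψ s (F y)) = ψ (s + θ) (F y)
    rw [← h.top.add, add_comm]
  rwa [e1] at hθ'

/-- **Recurrence.** -/
theorem rec' (s s' : Pm θ₀) {δ : ℝ} (hδ : 0 < δ) (h1 : |(s : ℝ)| + δ < θ₀)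
    (h2 : |(s' : ℝ)| + δ < θ₀) :
    ∃ M : ℕ, ∀ x y : ℕ → Ω, (∀ i, x (i + 1) = R (x i)) → (∀ i, y (i + 1) = R (y i)) →
      ∃ l ≤ M, ∃ T : ℝ → ℝ, SF T θ₀ ∧ (∀ t u, t ≤ u → T u - T t ≤ u - t) ∧
        ∀ (σ : Pm θ₀) (ξ : ℕ → Ω) (t : ℝ), (σ = s ∨ σ = s') → (ξ = x ∨ ξ = y) →
          Φ σ (ξ l) = ψ t (Φ s (x l)) → |T t - σ| < δ := by
  obtain ⟨η₁, hη₁, H1⟩ := h.mlem s hδ
  obtain ⟨η₂, hη₂, H2⟩ := h.mlem s' hδ
  obtain ⟨η, hη, l1, l2⟩ : ∃ η : ℝ, 0 < η ∧ η ≤ η₁ ∧ η ≤ η₂ :=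
    ⟨min η₁ η₂, lt_min hη₁ hη₂, min_le_left _ _, min_le_right _ _⟩
  obtain ⟨δψ, hδψ, H3⟩ := psi_unif h.top hη
  obtain ⟨δw, hδw, H4⟩ := u2 h.top h.orb δψ hδψ
  obtain ⟨ηc, hηc, H5⟩ := h.clos (min η δw) (lt_min hη hδw)
  obtain ⟨δπ, hδπ, H6⟩ := Metric.uniformContinuous_iff.1
    (CompactSpace.uniformContinuous_of_continuous h.orb.cont) ηc hηc
  obtain ⟨δΦ, hδΦ, H7⟩ := Metric.uniformContinuous_iff.1
    (CompactSpace.uniformContinuous_of_continuous (Φ s).continuous) δπ hδπ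
  obtain ⟨M, hM⟩ := pig_compact (Ω × Ω) (η := min η δΦ) (lt_min hη hδΦ)
  refine ⟨M, fun x y hx hy => ?_⟩
  obtain ⟨j₁, j₂, hj, hjM, hd⟩ := hM fun i => (x i, y i)
  obtain ⟨m, hm, rfl⟩ : ∃ m, 1 ≤ m ∧ j₂ = j₁ + m := ⟨j₂ - j₁, by omega, by omega⟩
  have hit : ∀ ξ : ℕ → Ω, (ξ = x ∨ ξ = y) → ∀ i, ξ (j₁ + i) = R^[i] (ξ j₁) := by
    intro ξ hξ i
    induction i with
    | zero => rfl
    | succ i ih =>
      rw [Function.iterate_succ_apply', ← ih, ← add_assoc]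
      rcases hξ with rfl | rfl
      · exact hx _
      · exact hy _
  have hdd : ∀ ξ : ℕ → Ω, (ξ = x ∨ ξ = y) → dist (ξ (j₁ + m)) (ξ j₁) < min η δΦ := by
    intro ξ hξ
    rw [dist_comm]
    rw [Prod.dist_eq] at hd
    rcases hξ with rfl | rfl
    · exact (le_max_left _ _).trans_lt hd
    · exact (le_max_right _ _).trans_lt hd
  have e1 : dist (f^[m] (π (Φ s (x j₁)))) (π (Φ s (x j₁))) < ηc := by
    rw [← h.pi_iter, ← hit x (Or.inl rfl)]
    exact H6 (H7 ((hdd x (Or.inl rfl)).trans_le (min_le_right _ _)))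
  obtain ⟨z, hz, hzs⟩ := H5 _ m hm e1
  obtain ⟨w, hw, hwd⟩ := H4 (Φ s (x j₁)) z ((hzs 0 (Nat.zero_le _)).trans_le (min_le_right _ _))
  have hwP : π w ∈ Per f := by rw [hw]; exact ⟨m, hm, hz⟩
  refine ⟨j₁, by omega, S w, h.sf w hwP, h.lip w hwP, fun σ ξ t hσ hξ ht => ?_⟩
  have hb : π (Φ σ (ξ j₁)) = π (Φ s (x j₁)) := by rw [ht, pi_psi h.orb]
  have key : ∃ σ' : ℝ, |σ' - σ| < δ ∧ ψ t w ∈ Per (Rt F ψ σ') := by
    have g1 : dist (ξ (j₁ + m)) (ξ (j₁ + 0)) < η := (hdd ξ hξ).trans_le (min_le_left _ _)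
    have g2 : ∀ i < m, dist (R (ξ (j₁ + i))) (ξ (j₁ + (i + 1))) < η := by
      intro i _
      rw [hit ξ hξ, hit ξ hξ, Function.iterate_succ_apply', dist_self]
      exact hη
    have g3 : ∀ i ≤ m, dist (f^[i] z) (π (Φ σ (ξ (j₁ + i)))) < η := by
      intro i hi
      rw [hit ξ hξ, h.pi_iter, hb]
      exact (hzs i hi).trans_le (min_le_left _ _)
    have g4 : π (ψ t w) = z := by rw [pi_psi h.orb, hw]
    have g5 : dist (ψ t w) (Φ σ (ξ (j₁ + 0))) < η := by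
      rw [add_zero, ht]
      exact H3 t _ _ hwd
    rcases hσ with rfl | rfl
    · exact H1 z m (fun i => ξ (j₁ + i)) (ψ t w) hm hz (g1.trans_le l1)
        (fun i hi => (g2 i hi).trans_le l1) (fun i hi => (g3 i hi).trans_le l1) g4
        (g5.trans_le l1)
    · exact H2 z m (fun i => ξ (j₁ + i)) (ψ t w) hm hz (g1.trans_le l2)
        (fun i hi => (g2 i hi).trans_le l2) (fun i hi => (g3 i hi).trans_le l2) g4
        (g5.trans_le l2)
  obtain ⟨σ', hσ', hσ''⟩ := key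
  have hσb : |σ'| < θ₀ := by
    have g6 := abs_sub_abs_le_abs_sub σ' (σ : ℝ)
    rcases hσ with rfl | rfl <;> linarith
  rw [(h.per w hwP σ' hσb t).1 hσ'']
  exact hσ'

/-- positions are unique -/
theorem uniq {x : N} {t t' : ℝ} (he : ψ t x = ψ t' x) (hd : |t - t'| < 1) : t = t' := by
  obtain ⟨j, hj⟩ := (psi_eq h.top _ _ _).1 he
  rw [hj, add_sub_cancel_left] at hd
  have h1 : |j| < 1 := by exact_mod_cast hd
  rw [hj, Int.abs_lt_one_iff.1 h1]
  simp

theorem pos_closed (s s' : Pm θ₀) (p q : ℝ) :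
    IsClosed {ω | ∃ t ∈ Icc p q, Φ s' ω = ψ t (Φ s ω)} := by
  have h1 : {ω | ∃ t ∈ Icc p q, Φ s' ω = ψ t (Φ s ω)} = Prod.snd ''
      ((Icc p q ×ˢ (univ : Set Ω)) ∩ {r : ℝ × Ω | Φ s' r.2 = ψ r.1 (Φ s r.2)}) := by
    ext ω
    constructor
    · rintro ⟨t, ht, hω⟩
      exact ⟨(t, ω), ⟨⟨ht, mem_univ _⟩, hω⟩, rfl⟩
    · rintro ⟨⟨t, ω'⟩, ⟨⟨ht, -⟩, hω⟩, rfl⟩
      exact ⟨t, ht, hω⟩
  rw [h1]
  have h2 : IsClosed {r : ℝ × Ω | Φ s' r.2 = ψ r.1 (Φ s r.2)} := by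
    refine isClosed_eq ((Φ s').continuous.comp continuous_snd) ?_
    exact h.top.cont.comp (continuous_fst.prodMk ((Φ s).continuous.comp continuous_snd))
  exact (((isCompact_Icc.prod isCompact_univ).inter_right h2).image continuous_snd).isClosed

/-- the types propagate forward -/
theorem typ_fwd {δa : ℝ} (hδa : ∀ (v : N) (t : ℝ), |t| < δa → |a v t| < 1 / 4) {s s' : Pm θ₀}
    (hss : (s : ℝ) < s') (hss' : (s' : ℝ) - s < 1 / 4) {ρ : ℝ} (hρ : ρ ≤ δa) (hρ' : ρ ≤ 1 / 4)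
    {α : Ω → ℝ} (hα : Shf ψ Φ s s' ρ α) {ω : Ω} (hω : 0 ≤ α ω) : (s' : ℝ) - s ≤ α (R ω) := by
  have h1 := h.evo hδa (s := s) (s' := s') (by rw [abs_of_pos (by linarith)]; exact hss')
    (hα.eq ω) (hα.eq (R ω)) ((hα.small ω).trans_le hρ) ((hα.small _).trans_le hρ')
  have h2 := (h.top.amono (Φ s ω)).monotone hω
  rw [h.top.azero] at h2
  linarith

/-- **The types are invariant.** -/
theorem typ_bwd {δa : ℝ} (hδa : ∀ (v : N) (t : ℝ), |t| < δa → |a v t| < 1 / 4) {s s' : Pm θ₀}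
    (hss : (s : ℝ) < s') (hss' : (s' : ℝ) - s < 1 / 4) {ρ : ℝ} (hρ : ρ ≤ δa) (hρ' : ρ ≤ 1 / 4)
    {α : Ω → ℝ} (hα : Shf ψ Φ s s' ρ α) :
    ∃ c : ℝ, 0 < c ∧ (∀ ω, α ω ≤ -c ∨ 0 ≤ α ω) ∧ ∀ ω, 0 ≤ α (R ω) → 0 ≤ α ω := by
  have hpos : 0 < (s' : ℝ) - s := by linarith
  obtain ⟨c, hc, hc'⟩ := a_small h.top F.continuous hpos
  have hper : ∀ ω ∈ Per R, 0 ≤ α (R ω) → 0 ≤ α ω := by
    rintro ω ⟨m, hm, hω⟩ h1
    have h2 : ∀ i, 0 ≤ α (R^[i] (R ω)) := by
      intro i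
      induction i with
      | zero => exact h1
      | succ i ih =>
        rw [Function.iterate_succ_apply']
        exact hpos.le.trans (h.typ_fwd hδa hss hss' hρ hρ' hα ih)
    have h3 := h2 (m - 1)
    rw [← Function.iterate_succ_apply, Nat.succ_eq_add_one, Nat.sub_add_cancel hm, hω] at h3
    exact h3
  have hperc : ∀ ω ∈ Per R, α ω ≤ -c ∨ 0 ≤ α ω := by
    intro ω hω
    by_cases h1 : 0 ≤ α ω
    · exact Or.inr h1
    · left
      have h2 : α (R ω) < 0 := by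
        by_contra hcon
        push Not at hcon
        exact h1 (hper ω hω hcon)
      have h3 := h.evo hδa (s := s) (s' := s') (by rw [abs_of_pos hpos]; exact hss')
        (hα.eq ω) (hα.eq (R ω)) ((hα.small ω).trans_le hρ) ((hα.small _).trans_le hρ')
      by_contra hcon
      push Not at hcon h1
      have h4 := hc' (Φ s ω) (α ω) (by rw [abs_of_neg h1]; linarith)
      have h5 := (abs_lt.1 h4).1
      linarith
  have huq : ∀ ω t, t ∈ Icc (-ρ) ρ → Φ s' ω = ψ t (Φ s ω) → t = α ω := by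
    intro ω t ht ht'
    refine h.uniq (ht'.symm.trans (hα.eq ω)) ?_
    have h1 := hα.small ω
    have h2 : |t| ≤ ρ := abs_le.2 ht
    have h3 := abs_sub t (α ω)
    linarith
  have hdich : ∀ ω, α ω ≤ -c ∨ 0 ≤ α ω := by
    intro ω
    by_contra hcon
    push Not at hcon
    have hU : IsOpen ({ω | ∃ t ∈ Icc (-ρ) (-c), Φ s' ω = ψ t (Φ s ω)}ᶜ ∩
        {ω | ∃ t ∈ Icc 0 ρ, Φ s' ω = ψ t (Φ s ω)}ᶜ) :=
      (h.pos_closed s s' _ _).isOpen_compl.inter (h.pos_closed s s' _ _).isOpen_compl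
    obtain ⟨ω₁, ⟨hω1, hω2⟩, hω₁⟩ := h.dens _ hU ⟨ω, fun ⟨t, ht, ht'⟩ => by
        have h1 := huq ω t ⟨ht.1, by linarith [ht.2, (abs_nonneg (α ω)).trans_lt (hα.small ω)]⟩ ht'
        rw [h1] at ht
        linarith [ht.2], fun ⟨t, ht, ht'⟩ => by
        have h1 := huq ω t ⟨by linarith [ht.1, (abs_nonneg (α ω)).trans_lt (hα.small ω)], ht.2⟩ ht'
        rw [h1] at ht
        linarith [ht.1]⟩
    have hb := abs_lt.1 (hα.small ω₁)
    rcases hperc ω₁ hω₁ with h1 | h1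
    · exact hω1 ⟨α ω₁, ⟨hb.1.le, h1⟩, hα.eq ω₁⟩
    · exact hω2 ⟨α ω₁, ⟨h1, hb.2.le⟩, hα.eq ω₁⟩
  refine ⟨c, hc, hdich, fun ω h1 => ?_⟩
  by_contra hcon
  push Not at hcon
  have hU : IsOpen ({ω | ∃ t ∈ Icc 0 ρ, Φ s' ω = ψ t (Φ s ω)}ᶜ ∩
      R ⁻¹' {ω | ∃ t ∈ Icc (-ρ) (-c), Φ s' ω = ψ t (Φ s ω)}ᶜ) :=
    (h.pos_closed s s' _ _).isOpen_compl.inter
      ((h.pos_closed s s' _ _).isOpen_compl.preimage R.continuous)
  obtain ⟨ω₁, ⟨hω1, hω2⟩, hω₁⟩ := h.dens _ hU ⟨ω, fun ⟨t, ht, ht'⟩ => by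
      have h2 := huq ω t ⟨by linarith [ht.1, (abs_nonneg (α ω)).trans_lt (hα.small ω)], ht.2⟩ ht'
      rw [h2] at ht
      linarith [ht.1], fun ⟨t, ht, ht'⟩ => by
      have h2 := huq (R ω) t
        ⟨ht.1, by linarith [ht.2, (abs_nonneg (α ω)).trans_lt (hα.small ω)]⟩ ht'
      rw [h2] at ht
      linarith [ht.2]⟩
  have hb := abs_lt.1 (hα.small ω₁)
  have hb' := abs_lt.1 (hα.small (R ω₁))
  have h2 : ¬ 0 ≤ α ω₁ := fun hh => hω1 ⟨α ω₁, ⟨hh, hb.2.le⟩, hα.eq ω₁⟩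
  have h3 : 0 ≤ α (R ω₁) := by
    rcases hdich (R ω₁) with h4 | h4
    · exact absurd ⟨α (R ω₁), ⟨hb'.1.le, h4⟩, hα.eq (R ω₁)⟩ hω2
    · exact h4
  exact h2 (hper ω₁ hω₁ h3)

end DG

/-- a property which is invariant under steps holds along the whole sequence -/
theorem int_all {P : ℤ → Prop} (h1 : ∀ i, P i → P (i + 1)) (h2 : ∀ i, P (i + 1) → P i) {j : ℤ}
    (hj : P j) (i : ℤ) : P i := by
  have hf : ∀ n : ℕ, P (j + n) := by
    intro n
    induction n with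
    | zero => simpa using hj
    | succ n ih =>
      push_cast
      rw [← add_assoc]
      exact h1 _ ih
  have hb : ∀ n : ℕ, P (j - n) := by
    intro n
    induction n with
    | zero => simpa using hj
    | succ n ih =>
      push_cast
      refine h2 _ ?_
      rwa [show j - (n + 1 : ℤ) + 1 = j - n by ring]
  rcases le_total j i with h3 | h3
  · have := hf (i - j).toNat
    rwa [Int.toNat_of_nonneg (by omega), add_sub_cancel] at this
  · have := hb (j - i).toNat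
    rwa [Int.toNat_of_nonneg (by omega), sub_sub_cancel] at this

namespace DG

variable (h : DG F ψ a π f θ₀ S e R Φ)

include h

/-- **Expansivity, in coordinates.** -/
theorem noexp {δa : ℝ} (hδa : ∀ (v : N) (t : ℝ), |t| < δa → |a v t| < 1 / 4) {s : Pm θ₀}
    (hs : ∀ ε : ℝ, 0 < ε → ∃ s' : Pm θ₀, (s : ℝ) < s' ∧ (s' : ℝ) < s + ε ∧
      dist (Φ s') (Φ s) < ε) {ρ : ℝ} (hρ : 0 < ρ) (r1 : 2 * ρ ≤ δa) (r2 : ρ ≤ 1 / 16)
    (r3 : |(s : ℝ)| + 8 * ρ ≤ θ₀) (x y : ℤ → Ω) (hx : ∀ i, x (i + 1) = R (x i))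
    (hy : ∀ i, y (i + 1) = R (y i)) (t : ℤ → ℝ) (ht : ∀ i, Φ s (y i) = ψ (t i) (Φ s (x i)))
    (htb : ∀ i, |t i| < ρ) (j₀ : ℤ) (ht0 : 0 < t j₀) : False := by
  obtain ⟨sb1, sb2⟩ := abs_le.1 (le_refl |(s : ℝ)|)
  -- evolution of `t`
  have htev : ∀ i, t (i + 1) = a (Φ s (x i)) (t i) := by
    intro i
    have h1 := h.evo hδa (s := s) (s' := s) (by rw [sub_self, abs_zero]; norm_num)
      (ht i) (by rw [← hx, ← hy]; exact ht (i + 1)) ((htb i).trans_le (by linarith))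
      ((htb (i + 1)).trans_le (by linarith))
    rw [h1]
    ring
  have htpos : ∀ i, 0 < t i := by
    refine int_all (P := fun i => 0 < t i) (fun i hi => ?_) (fun i hi => ?_) ht0
    · rw [htev]
      have := h.top.amono (Φ s (x i)) hi
      rwa [h.top.azero] at this
    · by_contra hcon
      push Not at hcon
      have := (h.top.amono (Φ s (x i))).monotone hcon
      rw [h.top.azero] at this
      have hi' : 0 < t (i + 1) := hi
      rw [htev] at hi'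
      linarith
  -- the shift
  obtain ⟨ρ', hρ', q1, q2⟩ : ∃ ρ' : ℝ, 0 < ρ' ∧ ρ' ≤ ρ ∧ ρ' ≤ t j₀ :=
    ⟨min ρ (t j₀), lt_min hρ ht0, min_le_left _ _, min_le_right _ _⟩
  obtain ⟨ε, hε, Hsh⟩ := h.shift_of hρ'
  obtain ⟨s', s1, s2, s3⟩ := hs (min ε ρ) (lt_min hε hρ)
  have s2' : (s' : ℝ) - s < ρ := by
    have := min_le_right ε ρ
    linarith
  obtain ⟨α, hα⟩ := Hsh s s' (s3.trans_le (min_le_left _ _))
  have hss4 : (s' : ℝ) - s < 1 / 4 := by linarith
  have hαb := fun ω => abs_lt.1 (hα.small ω)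
  have f1 : ∀ ω, 0 ≤ α ω → 0 ≤ α (R ω) := fun ω hω => by
    have := h.typ_fwd hδa s1 hss4 (by linarith) (by linarith) hα hω
    linarith
  obtain ⟨c, hc, -, f2⟩ := h.typ_bwd hδa s1 hss4 (by linarith) (by linarith) hα
  -- recurrence
  obtain ⟨δ, hδ⟩ : ∃ δ : ℝ, δ = ((s' : ℝ) - s) / 4 := ⟨_, rfl⟩
  have hδ0 : 0 < δ := by rw [hδ]; linarith
  have hs'b : |(s' : ℝ)| ≤ |(s : ℝ)| + ρ := by
    have := abs_sub_abs_le_abs_sub (s' : ℝ) s
    rw [abs_of_pos (by linarith : (0 : ℝ) < (s' : ℝ) - s)] at this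
    linarith
  obtain ⟨sc1, sc2⟩ := abs_le.1 (le_refl |(s' : ℝ)|)
  obtain ⟨M, hM⟩ := h.rec' s s' hδ0 (by linarith) (by linarith)
  -- evolution of the second positions
  have hγ : ∀ i, Φ s' (y i) = ψ (t i + α (y i)) (Φ s (x i)) := by
    intro i
    rw [hα.eq, ht, ← h.top.add, add_comm]
  by_cases hX : 0 ≤ α (x j₀)
  · have hX' : ∀ i, 0 ≤ α (x i) := by
      refine int_all (P := fun i => 0 ≤ α (x i)) (fun i hi => ?_) (fun i hi => ?_) hX
      · rw [hx]; exact f1 _ hi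
      · have hi' : 0 ≤ α (x (i + 1)) := hi
        rw [hx] at hi'
        exact f2 _ hi'
    obtain ⟨l, hl, T, hT, hTl, hTt⟩ := hM (fun i => x (j₀ - M + i)) (fun i => y (j₀ - M + i))
      (fun i => by push_cast; rw [← add_assoc]; exact hx _)
      (fun i => by push_cast; rw [← add_assoc]; exact hy _)
    obtain ⟨j, hj⟩ : ∃ j : ℤ, j = j₀ - M + l := ⟨_, rfl⟩
    have T0 := hTt s _ 0 (Or.inl rfl) (Or.inl rfl) (h.top.zero _).symm
    have T1 := hTt s _ (t j) (Or.inl rfl) (Or.inr rfl) (by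
      show Φ s (y (j₀ - M + l)) = ψ (t j) (Φ s (x (j₀ - M + l)))
      rw [← hj]
      exact ht j)
    have T2 := hTt s' _ (α (x j)) (Or.inr rfl) (Or.inl rfl) (by
      show Φ s' (x (j₀ - M + l)) = ψ (α (x j)) (Φ s (x (j₀ - M + l)))
      rw [← hj]
      exact hα.eq _)
    obtain ⟨T0a, T0b⟩ := abs_lt.1 T0
    obtain ⟨T1a, T1b⟩ := abs_lt.1 T1
    obtain ⟨T2a, T2b⟩ := abs_lt.1 T2
    have hlt : t j < α (x j) := by
      by_contra hcon
      push Not at hcon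
      have n1 : α (x j) ≠ 0 := by
        intro hh
        rw [hh] at T2a T2b
        linarith
      have n2 : α (x j) ≠ t j := by
        intro hh
        rw [hh] at T2a T2b
        linarith
      have g1 : 0 < α (x j) := lt_of_le_of_ne (hX' j) (Ne.symm n1)
      have g2 : α (x j) < t j := lt_of_le_of_ne hcon n2
      have g3 := (abs_lt.1 (htb j)).2
      exact hill hT hTl g1 g2 (by linarith) (by linarith) (by linarith) (by linarith)
    -- push forward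
    have push : ∀ k : ℕ, t (j + k) < α (x (j + k)) := by
      intro k
      induction k with
      | zero => simpa using hlt
      | succ k ih =>
        push_cast
        rw [← add_assoc, htev]
        have g1 := h.evo hδa (s := s) (s' := s')
          (by rw [abs_of_pos (by linarith)]; exact hss4) (hα.eq (x (j + k)))
          (hα.eq (R (x (j + k)))) ((hα.small _).trans_le (by linarith))
          ((hα.small _).trans_le (by linarith))
        rw [hx, g1]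
        have g2 := h.top.amono (Φ s (x (j + k))) ih
        linarith
    have h3 := push (M - l)
    rw [hj, Nat.cast_sub hl] at h3
    rw [show j₀ - (M : ℤ) + l + ((M : ℤ) - l) = j₀ by ring] at h3
    linarith [(hαb (x j₀)).2]
  · have hX' : ∀ i, α (x i) < 0 := by
      intro i
      by_contra hcon
      push Not at hcon
      refine hX (int_all (P := fun i => 0 ≤ α (x i)) (fun i hi => ?_) (fun i hi => ?_) hcon j₀)
      · rw [hx]; exact f1 _ hi
      · have hi' : 0 ≤ α (x (i + 1)) := hi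
        rw [hx] at hi'
        exact f2 _ hi'
    obtain ⟨l, hl, T, hT, hTl, hTt⟩ := hM (fun i => x (j₀ + i)) (fun i => y (j₀ + i))
      (fun i => by push_cast; rw [← add_assoc]; exact hx _)
      (fun i => by push_cast; rw [← add_assoc]; exact hy _)
    obtain ⟨j, hj⟩ : ∃ j : ℤ, j = j₀ + l := ⟨_, rfl⟩
    have T0 := hTt s _ 0 (Or.inl rfl) (Or.inl rfl) (h.top.zero _).symm
    have T1 := hTt s _ (t j) (Or.inl rfl) (Or.inr rfl) (by
      show Φ s (y (j₀ + l)) = ψ (t j) (Φ s (x (j₀ + l)))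
      rw [← hj]
      exact ht j)
    have T2 := hTt s' _ (α (x j)) (Or.inr rfl) (Or.inl rfl) (by
      show Φ s' (x (j₀ + l)) = ψ (α (x j)) (Φ s (x (j₀ + l)))
      rw [← hj]
      exact hα.eq _)
    have T3 := hTt s' _ (t j + α (y j)) (Or.inr rfl) (Or.inr rfl) (by
      show Φ s' (y (j₀ + l)) = ψ (t j + α (y j)) (Φ s (x (j₀ + l)))
      rw [← hj]
      exact hγ j)
    obtain ⟨T0a, T0b⟩ := abs_lt.1 T0
    obtain ⟨T1a, T1b⟩ := abs_lt.1 T1
    obtain ⟨T2a, T2b⟩ := abs_lt.1 T2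
    obtain ⟨T3a, T3b⟩ := abs_lt.1 T3
    have tb := (abs_lt.1 (htb j)).2
    have tp := htpos j
    obtain ⟨αx1, αx2⟩ := hαb (x j)
    obtain ⟨αy1, αy2⟩ := hαb (y j)
    by_cases hY : 0 ≤ α (y j₀)
    · have hY' : 0 ≤ α (y j) := by
        refine int_all (P := fun i => 0 ≤ α (y i)) (fun i hi => ?_) (fun i hi => ?_) hY j
        · rw [hy]; exact f1 _ hi
        · have hi' : 0 ≤ α (y (i + 1)) := hi
          rw [hy] at hi'
          exact f2 _ hi'
      have g1 := hX' j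
      exact valley hT hTl g1 (show (0 : ℝ) < t j + α (y j) by linarith) (by linarith)
        (by linarith) (by linarith) (by linarith)
    · have hY' : ∀ i, α (y i) < 0 := by
        intro i
        by_contra hcon
        push Not at hcon
        refine hY (int_all (P := fun i => 0 ≤ α (y i)) (fun i hi => ?_) (fun i hi => ?_) hcon j₀)
        · rw [hy]; exact f1 _ hi
        · have hi' : 0 ≤ α (y (i + 1)) := hi
          rw [hy] at hi'
          exact f2 _ hi'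
      have hlt : t j + α (y j) < 0 := by
        by_contra hcon
        push Not at hcon
        have n1 : t j + α (y j) ≠ 0 := by
          intro hh
          rw [hh] at T3a T3b
          linarith
        have g1 : 0 < t j + α (y j) := lt_of_le_of_ne hcon (Ne.symm n1)
        exact hill hT hTl g1 (show t j + α (y j) < t j by linarith [hY' j]) (by linarith)
          (by linarith) (by linarith) (by linarith)
      have pull : ∀ k : ℕ, t (j - k) + α (y (j - k)) < 0 := by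
        intro k
        induction k with
        | zero => simpa using hlt
        | succ k ih =>
          push_cast
          obtain ⟨i, hi⟩ : ∃ i : ℤ, i = j - (k + 1) := ⟨_, rfl⟩
          have hi' : j - k = i + 1 := by rw [hi]; ring
          rw [hi'] at ih
          rw [← hi]
          have b1 := abs_lt.1 (htb i)
          have b2 := hαb (y i)
          have b3 := abs_lt.1 (htb (i + 1))
          have b4 := hαb (y (i + 1))
          have g1 := h.evo hδa (s := s) (s' := s') (γ := t i + α (y i))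
            (γ' := t (i + 1) + α (y (i + 1)))
            (by rw [abs_of_pos (by linarith)]; exact hss4) (hγ i)
            (by rw [← hx, ← hy]; exact hγ (i + 1))
            (by rw [abs_lt]; constructor <;> linarith [b1.1, b1.2, b2.1, b2.2])
            (by rw [abs_lt]; constructor <;> linarith [b3.1, b3.2, b4.1, b4.2])
          by_contra hcon
          push Not at hcon
          have g2 := (h.top.amono (Φ s (x i))).monotone hcon
          rw [h.top.azero] at g2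
          linarith
      have h3 := pull l
      rw [hj, show j₀ + (l : ℤ) - l = j₀ by ring] at h3
      linarith [(hαb (y j₀)).1]

end DG

end

end Pool.Agent.V5helper25.TG
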