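import Pool.Agent.V5helper25.TG.Bdd

/-!
# MP_4a0782, circle extensions over hyperbolic bases: the theorem
-/

set_option autoImplicit false

open scoped Manifold ContDiff Topology
open Filter Set Metric

universe u v

namespace Pool.Agent.V5helper25.TG

open Pool.Agent.H718R2.G Pool.Agent.W564.SC Pool.Agent.TH80.OMS Pool.Agent.TH290.CL
  Pool.Agent.N813.OF Pool.Agent.N813.CX Pool.Agent.N813.CX.CLOS Pool.Agent.V5helper25.TK

/-- `G` is expansive on `A`: for some neighbourhood `W` of the diagonal, two bi-infinite orbits of `G`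
in `A` with `(x_i, y_i) ∈ W` for all `i ∈ ℤ` are the same. -/
def ExpansiveOn {X : Type u} [TopologicalSpace X] (G : X → X) (A : Set X) : Prop :=
  ∃ W : Set (X × X), IsOpen W ∧ (∀ x, (x, x) ∈ W) ∧ ∀ x y : ℤ → X, (∀ i, x i ∈ A) →
    (∀ i, y i ∈ A) → (∀ i, G (x i) = x (i + 1)) → (∀ i, G (y i) = y (i + 1)) →
      (∀ i, (x i, y i) ∈ W) → x = y

/-- `G` has the shadowing property on `A`: for each neighbourhood `W` of the diagonal there is a
neighbourhood `V` of the diagonal such that for each bi-infinite sequence `x` in `A` with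
`(G (x_i), x_(i+1)) ∈ V` for all `i ∈ ℤ` there is a bi-infinite orbit `y` of `G` in `A` with
`(y_i, x_i) ∈ W` for all `i ∈ ℤ`. -/
def ShadowingOn {X : Type u} [TopologicalSpace X] (G : X → X) (A : Set X) : Prop :=
  ∀ W : Set (X × X), IsOpen W → (∀ x, (x, x) ∈ W) → ∃ V : Set (X × X), IsOpen V ∧
    (∀ x, (x, x) ∈ V) ∧ ∀ x : ℤ → X, (∀ i, x i ∈ A) → (∀ i, (G (x i), x (i + 1)) ∈ V) →
      ∃ y : ℤ → X, (∀ i, y i ∈ A) ∧ (∀ i, G (y i) = y (i + 1)) ∧ ∀ i, (y i, x i) ∈ W

/-- `F` on `Ω(F)` is a bounded-to-one extension of `f` on `Ω(f)`: there are a continuous surjective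
map `g : Ω(F) → Ω(f)` with `g ∘ F = f ∘ g` and a number `C` such that the fibres of `g` have at most
`C` points. -/
def BoundedExtension {N : Type u} [TopologicalSpace N] {B : Type v} [TopologicalSpace B]
    (F : N → N) (f : B → B) : Prop :=
  ∃ g : Omega F → Omega f, Continuous g ∧ Function.Surjective g ∧
    (∀ x y : Omega F, F x = y → (g y : B) = f (g x)) ∧
      ∃ C : ℕ, ∀ y, {x | g x = y}.Finite ∧ {x | g x = y}.ncard ≤ C

/-- neighbourhoods of the diagonal of a compact metric space -/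
theorem diag_nhds {X : Type u} [MetricSpace X] [CompactSpace X] {W : Set (X × X)} (hW : IsOpen W)
    (hd : ∀ x, (x, x) ∈ W) : ∃ ε : ℝ, 0 < ε ∧ ∀ x y, dist x y < ε → (x, y) ∈ W := by
  obtain ⟨ε, hε, H⟩ := (hW.isClosed_compl.isCompact).exists_forall_le'
    (f := fun q : X × X => dist q.1 q.2) continuous_dist.continuousOn (a := 0) (by
      rintro ⟨x, y⟩ hxy
      apply dist_pos.2
      intro he
      have he' : x = y := he
      rw [he'] at hxy
      exact hxy (hd y))
  refine ⟨ε, hε, fun x y hxy => ?_⟩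
  by_contra hcon
  have := H (x, y) hcon
  linarith

/-- the restriction of a homeomorphism to its nonwandering set -/
def omR {N : Type u} [TopologicalSpace N] (F : N ≃ₜ N) :
    Omega (F : N → N) ≃ₜ Omega (F : N → N) where
  toFun x := ⟨F x, CONJ.omega_map F.continuous x.2⟩
  invFun x := ⟨F.symm x, om_symm F x.2⟩
  left_inv x := Subtype.ext (F.symm_apply_apply x)
  right_inv x := Subtype.ext (F.apply_symm_apply x)
  continuous_toFun := (F.continuous.comp continuous_subtype_val).subtype_mk _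
  continuous_invFun := (F.symm.continuous.comp continuous_subtype_val).subtype_mk _

theorem omR_iter {N : Type u} [TopologicalSpace N] (F : N ≃ₜ N) (x : Omega (F : N → N)) (i : ℕ) :
    (((omR F)^[i] x : Omega (F : N → N)) : N) = F^[i] x := by
  induction i with
  | zero => rfl
  | succ i ih =>
    rw [Function.iterate_succ_apply', Function.iterate_succ_apply', ← ih]
    rfl

section

variable {N : Type u} [MetricSpace N] [CompactSpace N] {B : Type v} [MetricSpace B] {F : N ≃ₜ N}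
  {ψ : ℝ → N → N} {a : N → ℝ → ℝ} {π : N → B} {f : B → B} {θ₀ : ℝ}

/-- **The theorem, for homeomorphisms.** -/
theorem final {S : N → ℝ → ℝ} (top : TopExt F ψ a) (orb : OrbitMap F ψ π f)
    (clos : ClosingProp f) (pos : 0 < θ₀) (sf : ∀ v, π v ∈ Per f → SF (S v) θ₀)
    (per : ∀ v, π v ∈ Per f → ∀ s, |s| < θ₀ → ∀ t, (ψ t v ∈ Per (Rt F ψ s) ↔ S v t = s))
    (lip : ∀ v, π v ∈ Per f → ∀ t u, t ≤ u → S v u - S v t ≤ u - t)
    (hexp : ExpansiveOn f (Omega f)) (hsh : ShadowingOn f (Omega f))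
    (hconj : ∀ s, |s| < θ₀ → OmegaConj F (Rt F ψ s)) (hd : Omega F ⊆ closure (Per F)) :
    ExpansiveOn F (Omega F) ∧ ShadowingOn F (Omega F) ∧ BoundedExtension (F : N → N) f := by
  have hCO : CompactSpace (Omega (F : N → N)) :=
    isCompact_iff_compactSpace.1 (om_closed _).isCompact
  have hCB : CompactSpace B := ⟨by
    rw [← orb.surj.range_eq]
    exact isCompact_range orb.cont⟩
  obtain ⟨We, hWe1, hWe2, hWe3⟩ := hexp
  obtain ⟨e, he, hWe⟩ := diag_nhds hWe1 hWe2
  have hex : ∀ s : Pm θ₀, ∃ c : Omega (F : N → N) ≃ₜ Omega (Rt F ψ s),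
      ∀ x y : Omega (F : N → N), F x = y → Rt F ψ s (c x) = c y := fun s => hconj s s.2
  choose c hc using hex
  obtain ⟨Φ, hΦ⟩ : ∃ Φ : Pm θ₀ → C(Omega (F : N → N), N), ∀ s x, Φ s x = c s x :=
    ⟨fun s => ⟨fun x => c s x, continuous_subtype_val.comp (c s).continuous⟩, fun s x => rfl⟩
  -- the nonwandering sets of the rotated maps
  have hom : ∀ s : Pm θ₀, Omega (Rt F ψ s) = closure (Per (Rt F ψ s)) := by
    intro s
    apply subset_antisymm
    · exact CONJ.t N (Rt F ψ s) F (Rt_cont top s) (conj_symm F.continuous (hconj s s.2)) hd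
    · exact closure_minimal (CONJ.per_sub _) (om_closed _)
  have hbase : ∀ (s : Pm θ₀), ∀ x ∈ Omega (Rt F ψ s), π x ∈ Omega f := by
    intro s x hx
    rw [hom] at hx
    rw [← om_base f clos]
    exact map_mem_closure orb.cont hx fun w hw => per_base orb hw
  have hDG : DG F ψ a π f θ₀ S e (omR F) Φ := by
    refine ⟨top, orb, clos, pos, sf, per, lip, he, ?_, ?_, ?_, ?_, ?_, ?_⟩
    · intro x y hx hy hfx hfy hxy
      exact hWe3 x y hx hy hfx hfy fun i => hWe _ _ (hxy i)
    · intro U hU hne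
      obtain ⟨wo, hwo⟩ := hne
      obtain ⟨V, hV, rfl⟩ := isOpen_induced_iff.1 hU
      obtain ⟨p, hpV, hp⟩ := mem_closure_iff.1 (hd wo.2) V hV hwo
      refine ⟨⟨p, CONJ.per_sub _ hp⟩, hpV, ?_⟩
      obtain ⟨m, hm, hpm⟩ := hp
      exact ⟨m, hm, Subtype.ext (by rw [omR_iter]; exact hpm)⟩
    · intro s wo
      rw [hΦ, hΦ]
      exact hc s wo (omR F wo) rfl
    · intro s wo
      rw [hΦ]
      exact hbase s _ (c s wo).2
    · intro s x y hxy
      rw [hΦ, hΦ] at hxy
      exact (c s).injective (Subtype.ext hxy)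
    · intro s p hp
      refine ⟨(c s).symm ⟨p, CONJ.per_sub _ hp⟩, ?_⟩
      rw [hΦ, (c s).apply_symm_apply]
  -- the good parameter
  obtain ⟨E, hE, hcond⟩ := cond Φ
  have hunI : ¬ (Ioo (-θ₀) θ₀).Countable := by
    intro hc
    have h1 := Cardinal.le_aleph0_iff_set_countable.2 hc
    rw [Cardinal.mk_Ioo_real (by linarith)] at h1
    exact absurd h1 (not_le.2 Cardinal.aleph0_lt_continuum)
  obtain ⟨s₀, hs₀, hs₀E⟩ : ∃ s₀ : ℝ, |s₀| < θ₀ ∧ s₀ ∉ E := by
    by_contra hcon
    push Not at hcon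
    exact hunI (hE.mono fun s hs => hcon s (abs_lt.2 hs))
  obtain ⟨s, hs⟩ : ∃ s : Pm θ₀, (s : ℝ) = s₀ := ⟨⟨s₀, hs₀⟩, rfl⟩
  have hs2 := hcond s (by rwa [hs])
  have hs1 : ∀ ε : ℝ, 0 < ε → ∃ s' : Pm θ₀, (s : ℝ) < s' ∧ (s' : ℝ) < s + ε ∧
      dist (Φ s') (Φ s) < ε := fun ε hε => (hs2 ε hε).1
  refine ⟨?_, ?_, ?_⟩
  · obtain ⟨ε, hε, H⟩ := hDG.expans hs1
    refine ⟨{q | dist q.1 q.2 < ε}, isOpen_lt continuous_dist continuous_const,
      fun x => by show dist x x < ε; rwa [dist_self], fun x y hx hy hFx hFy hxy => ?_⟩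
    have h1 := H (fun i => ⟨x i, hx i⟩) (fun i => ⟨y i, hy i⟩)
      (fun i => Subtype.ext (hFx i).symm) (fun i => Subtype.ext (hFy i).symm) hxy
    funext i
    exact congrArg Subtype.val (congrFun h1 i)
  · have hM : MShad f (Omega f) := by
      intro δ hδ
      obtain ⟨V, hV1, hV2, hV3⟩ := hsh {q | dist q.1 q.2 < δ}
        (isOpen_lt continuous_dist continuous_const)
        (fun x => by show dist x x < δ; rwa [dist_self])
      obtain ⟨η, hη, hVη⟩ := diag_nhds hV1 hV2
      refine ⟨η, hη, fun b hb hj => ?_⟩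
      obtain ⟨y, y1, y2, y3⟩ := hV3 b hb fun i => hVη _ _ (hj i)
      exact ⟨y, y1, y2, y3⟩
    have hS := hDG.shad hM hs2
    intro W hW hWd
    obtain ⟨δ, hδ, hWδ⟩ := diag_nhds hW hWd
    obtain ⟨η, hη, H⟩ := hS δ hδ
    refine ⟨{q | dist q.1 q.2 < η}, isOpen_lt continuous_dist continuous_const,
      fun x => by show dist x x < η; rwa [dist_self], fun x hx hj => ?_⟩
    obtain ⟨y, -, y2, y3⟩ := H (fun i => ⟨x i, hx i⟩) (fun _ => mem_univ _) hj
    exact ⟨fun i => y i, fun i => (y i).2, fun i => congrArg Subtype.val (y2 i),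
      fun i => hWδ _ _ (y3 i)⟩
  · obtain ⟨C, hC⟩ := hDG.bounded hs1
    obtain ⟨g, hg⟩ : ∃ g : Omega (F : N → N) → Omega f, ∀ wo, (g wo : B) = π (Φ s wo) :=
      ⟨fun wo => ⟨π (Φ s wo), hDG.base s wo⟩, fun wo => rfl⟩
    have hfib : ∀ y, {x | g x = y} = {wo | π (Φ s wo) = y} := by
      intro y
      ext wo
      show g wo = y ↔ π (Φ s wo) = y
      rw [← hg]
      exact Subtype.ext_iff
    refine ⟨g, ?_, ?_, fun x y hxy => ?_, C, fun y => ?_⟩
    · rw [continuous_induced_rng]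
      have : (Subtype.val ∘ g) = fun wo => π (Φ s wo) := funext hg
      rw [this]
      exact orb.cont.comp (Φ s).continuous
    · -- surjectivity
      have hcl : IsClosed (range fun wo => π (Φ s wo)) :=
        (isCompact_range (orb.cont.comp (Φ s).continuous)).isClosed
      have hsub : Per f ⊆ range fun wo => π (Φ s wo) := by
        intro y hy
        obtain ⟨v, rfl⟩ := orb.surj y
        obtain ⟨t, ht⟩ := (sf v hy).val s.2
        obtain ⟨wo, hwo⟩ := hDG.rng s ((per v hy s s.2 t).2 ht)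
        exact ⟨wo, by show π (Φ s wo) = π v; rw [hwo, pi_psi orb]⟩
      intro y
      have h1 : (y : B) ∈ closure (Per f) := by
        rw [om_base f clos]
        exact y.2
      obtain ⟨wo, hwo⟩ := closure_minimal hsub hcl h1
      exact ⟨wo, Subtype.ext (by rw [hg]; exact hwo)⟩
    · rw [hg, hg]
      have h1 : omR F x = y := Subtype.ext hxy
      rw [← h1, ← hDG.conj]
      exact (orbR orb (s : ℝ)).semi _
    · rw [hfib]
      exact hC y

end

section

variable {n : ℕ} {N : Type u} [TopologicalSpace N] [T2Space N] [CompactSpace N]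
  [ChartedSpace (V n) N] [IsManifold (𝓡 n) ∞ N] {r : ℕ∞}

/-- **The smooth theorem.** -/
theorem main (hr : 1 ≤ r) (F : DiffM n N r) (hF : OmegaStable n N r F) (ψ : ℝ → N → N)
    (h : CircleExt n N F ψ) (B : Type v) [MetricSpace B] (π : N → B) (f : B → B)
    (hπ : OrbitMap F ψ π f) (hf : ClosingProp f) (he : ExpansiveOn f (Omega f))
    (hs : ShadowingOn f (Omega f)) :
    ExpansiveOn F (Omega F) ∧ ShadowingOn F (Omega F) ∧ BoundedExtension F f := by
  have : SecondCountableTopology N := ChartedSpace.secondCountable_of_sigmaCompact (V n) N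
  let _ : MetricSpace N := TopologicalSpace.metrizableSpaceMetric N
  obtain ⟨a, H, θ₀, hH⟩ := exists_rotFam hr F hF ψ h
  have hHe : ∀ s, (H s : N → N) = Rt F ψ s := fun s => funext fun y => hH.eq s y
  have hex : ∀ v : N, ∃ S : ℝ → ℝ, π v ∈ Per f → SF S θ₀ ∧
      (∀ t u, t ≤ u → S u - S t ≤ u - t) ∧
      ∀ s, |s| < θ₀ → ∀ t, (ψ t v ∈ Per (Rt F ψ s) ↔ S t = s) := by
    intro v
    by_cases hv : π v ∈ Per f
    · obtain ⟨S, h1, h2, h3⟩ := exS hr hH hπ v hv
      refine ⟨S, fun _ => ⟨h1, h2, fun s hs t => ?_⟩⟩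
      rw [← hHe]
      exact h3 s hs t
    · exact ⟨fun _ => 0, fun hh => absurd hh hv⟩
  choose S hS using hex
  have hconj : ∀ s, |s| < θ₀ → OmegaConj F.toHomeomorph (Rt F.toHomeomorph ψ s) := by
    intro s hs
    have := hH.conj s hs
    rwa [hHe] at this
  have hd : Omega (F.toHomeomorph : N → N) ⊆ closure (Per F.toHomeomorph) :=
    dense hr hH B π f hπ hf
  exact final (F := F.toHomeomorph) hH.top hπ hf hH.pos (fun v hv => (hS v hv).1)
    (fun v hv => (hS v hv).2.2) (fun v hv => (hS v hv).2.1) he hs hconj hd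

end

end Pool.Agent.V5helper25.TG
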