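import Pool.Agent.V5helper25.TG.Exp

/-!
# MP_4a0782, circle extensions over hyperbolic bases: shadowing
-/

set_option autoImplicit false
set_option linter.unusedSectionVars false

open scoped Topology
open Filter Set Metric

universe u v

namespace Pool.Agent.V5helper25.TG

open Pool.Agent.TH80.OMS Pool.Agent.N813.CX Pool.Agent.N813.CX.CLOS Pool.Agent.V5helper25.TK

section

variable {N : Type u} [MetricSpace N] [CompactSpace N] {B : Type v} [MetricSpace B] {F : N ≃ₜ N}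
  {ψ : ℝ → N → N} {a : N → ℝ → ℝ} {π : N → B} {f : B → B} {θ₀ : ℝ} {S : N → ℝ → ℝ} {e : ℝ}
  {Ω : Type u} [MetricSpace Ω] [CompactSpace Ω] {R : Ω ≃ₜ Ω} {Φ : Pm θ₀ → C(Ω, N)}

/-- shadowing in the metric form -/
def MShad {X : Type*} [MetricSpace X] (g : X → X) (A : Set X) : Prop :=
  ∀ δ : ℝ, 0 < δ → ∃ η : ℝ, 0 < η ∧ ∀ b : ℤ → X, (∀ i, b i ∈ A) →
    (∀ i, dist (g (b i)) (b (i + 1)) < η) →
      ∃ c : ℤ → X, (∀ i, c i ∈ A) ∧ (∀ i, g (c i) = c (i + 1)) ∧ ∀ i, dist (c i) (b i) < δ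

/-- the inverse of an injective map of a compact space is uniformly continuous -/
theorem inj_unif {g : Ω → N} (hg : Continuous g) (hi : Function.Injective g) {ε : ℝ}
    (hε : 0 < ε) : ∃ δ : ℝ, 0 < δ ∧ ∀ x y, dist (g x) (g y) < δ → dist x y < ε := by
  have hK : IsCompact {q : Ω × Ω | ε ≤ dist q.1 q.2} :=
    (isClosed_le continuous_const continuous_dist).isCompact
  obtain ⟨δ, hδ, hδ'⟩ := hK.exists_forall_le'
    (f := fun q : Ω × Ω => dist (g q.1) (g q.2))
    ((hg.comp continuous_fst).dist (hg.comp continuous_snd)).continuousOn (a := 0) (by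
      rintro ⟨x, y⟩ hxy
      apply dist_pos.2
      intro he
      have hxy' : ε ≤ dist x y := hxy
      have he' : x = y := hi he
      rw [he', dist_self] at hxy'
      linarith)
  refine ⟨δ, hδ, fun x y hd => ?_⟩
  by_contra hcon
  push Not at hcon
  have := hδ' (x, y) hcon
  linarith

theorem orb_iter {X : Type*} {g : X → X} {c : ℤ → X} (hc : ∀ i, g (c i) = c (i + 1)) (i : ℤ)
    (k : ℕ) : g^[k] (c i) = c (i + k) := by
  induction k with
  | zero => simp
  | succ k ih =>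
    rw [Function.iterate_succ_apply', ih, hc]
    push_cast
    rw [add_assoc]

namespace DG

variable (h : DG F ψ a π f θ₀ S e R Φ)

include h

/-- **Shadowing of periodic pseudo-orbits.** -/
theorem pshad (hf : MShad f (Omega f)) {s : Pm θ₀}
    (hs : ∀ ε : ℝ, 0 < ε → (∃ s' : Pm θ₀, (s : ℝ) < s' ∧ (s' : ℝ) < s + ε ∧
      dist (Φ s') (Φ s) < ε) ∧ ∃ s' : Pm θ₀, (s' : ℝ) < s ∧ (s : ℝ) - ε < s' ∧
      dist (Φ s') (Φ s) < ε) {δ : ℝ} (hδ : 0 < δ) :
    ∃ η : ℝ, 0 < η ∧ ∀ (m : ℕ) (ζ : ℤ → Ω), 1 ≤ m → (∀ i, ζ (i + m) = ζ i) →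
      (∀ i, dist (R (ζ i)) (ζ (i + 1)) < η) →
      ∃ ξ : ℤ → Ω, (∀ i, ξ (i + 1) = R (ξ i)) ∧ ∀ i, dist (ξ i) (ζ i) < δ := by
  have hg : 0 < θ₀ - |(s : ℝ)| := by linarith [s.2]
  -- the scales
  obtain ⟨ε₁, hε₁, I1⟩ := inj_unif (Φ s).continuous (h.inj s) hδ
  obtain ⟨δu, hδu, I2⟩ := u1 h.top (θ₀ - |(s : ℝ)|) hg
  obtain ⟨ε₂, hε₂, I3⟩ := Metric.uniformContinuous_iff.1
    (CompactSpace.uniformContinuous_of_continuous (Rt_cont h.top (s : ℝ))) (δu / 3) (by linarith)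
  obtain ⟨ε, hε, l1, l2, l3⟩ : ∃ ε : ℝ, 0 < ε ∧ ε ≤ ε₁ ∧ ε ≤ ε₂ ∧ ε ≤ δu / 3 :=
    ⟨min ε₁ (min ε₂ (δu / 3)), by positivity, min_le_left _ _,
      (min_le_right _ _).trans (min_le_left _ _), (min_le_right _ _).trans (min_le_right _ _)⟩
  obtain ⟨ρ, hρ, I4⟩ := psi_small h.top (show 0 < ε / 2 by linarith)
  obtain ⟨εs, hεs, I5⟩ := h.shift_of hρ
  obtain ⟨εb, hεb, q1, q2⟩ : ∃ εb : ℝ, 0 < εb ∧ εb ≤ εs ∧ 4 * εb ≤ θ₀ - |(s : ℝ)| :=
    ⟨min εs ((θ₀ - |(s : ℝ)|) / 4), by positivity, min_le_left _ _, by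
      have := min_le_right εs ((θ₀ - |(s : ℝ)|) / 4)
      linarith⟩
  obtain ⟨⟨sp, p1, p2, p3⟩, ⟨sm, m1, m2, m3⟩⟩ := hs εb hεb
  obtain ⟨αp, hαp⟩ := I5 s sp (p3.trans_le q1)
  obtain ⟨αm, hαm⟩ := I5 s sm (m3.trans_le q1)
  obtain ⟨δT, hδT, t1, t2, t3⟩ : ∃ δT : ℝ, 0 < δT ∧ δT ≤ (sp : ℝ) - s ∧ δT ≤ (s : ℝ) - sm ∧
      δT ≤ εb :=
    ⟨min ((sp : ℝ) - s) (min ((s : ℝ) - sm) εb),
      lt_min (by linarith) (lt_min (by linarith) hεb), min_le_left _ _,
      (min_le_right _ _).trans (min_le_left _ _), (min_le_right _ _).trans (min_le_right _ _)⟩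
  obtain ⟨η₁, hη₁, J1⟩ := h.mlem sp hδT
  obtain ⟨η₂, hη₂, J2⟩ := h.mlem sm hδT
  obtain ⟨ηm, hηm, n1, n2⟩ : ∃ ηm : ℝ, 0 < ηm ∧ ηm ≤ η₁ ∧ ηm ≤ η₂ :=
    ⟨min η₁ η₂, lt_min hη₁ hη₂, min_le_left _ _, min_le_right _ _⟩
  obtain ⟨δψ, hδψ, I6⟩ := psi_unif h.top hηm
  obtain ⟨δw, hδw, I7⟩ := u2 h.top h.orb (min δψ (ε / 2)) (lt_min hδψ (by linarith))
  obtain ⟨δB, hδB, d1, d2, d3⟩ : ∃ δB : ℝ, 0 < δB ∧ δB ≤ ηm ∧ δB ≤ δw ∧ 2 * δB ≤ e :=
    ⟨min ηm (min δw (e / 2)), lt_min hηm (lt_min hδw (by linarith [h.epos])), min_le_left _ _,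
      (min_le_right _ _).trans (min_le_left _ _), by
      have := (min_le_right ηm (min δw (e / 2))).trans (min_le_right _ _)
      linarith⟩
  obtain ⟨ηB, hηB, I8⟩ := hf δB hδB
  obtain ⟨δπ, hδπ, I9⟩ := Metric.uniformContinuous_iff.1
    (CompactSpace.uniformContinuous_of_continuous h.orb.cont) ηB hηB
  obtain ⟨δΦ, hδΦ, I10⟩ := Metric.uniformContinuous_iff.1
    (CompactSpace.uniformContinuous_of_continuous (Φ s).continuous) (min δπ (δu / 3))
    (lt_min hδπ (by linarith))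
  refine ⟨min ηm δΦ, lt_min hηm hδΦ, fun m ζ hm hper hjump => ?_⟩
  -- the periodic orbit of the base
  obtain ⟨c, hcO, hc, hcb⟩ := I8 (fun i => π (Φ s (ζ i))) (fun i => h.base _ _) (fun i => by
    show dist (f (π (Φ s (ζ i)))) (π (Φ s (ζ (i + 1)))) < ηB
    rw [← (orbR h.orb (s : ℝ)).semi, h.conj]
    exact I9 ((I10 ((hjump i).trans_le (min_le_right _ _))).trans_le (min_le_left _ _)))
  have hcper : ∀ i, c (i + m) = c i := by
    have h1 := h.exp (fun i => c (i + m)) c (fun i => hcO _) hcO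
      (fun i => by show f (c (i + m)) = c (i + 1 + m); rw [hc]; congr 1; ring) hc (fun i => by
        show dist (c (i + m)) (c i) < e
        have g1 := hcb (i + m)
        have g2 := hcb i
        rw [hper] at g1
        have g3 := dist_triangle_right (c (i + m)) (c i) (π (Φ s (ζ i)))
        linarith)
    exact fun i => congrFun h1 i
  have hfm : ∀ i, f^[m] (c i) = c i := fun i => by rw [orb_iter hc, hcper]
  have hcP : ∀ i, c i ∈ Per f := fun i => ⟨m, hm, hfm i⟩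
  -- the points over the periodic orbit
  have hw : ∀ i, ∃ w, π w = c i ∧ dist w (Φ s (ζ i)) < min δψ (ε / 2) := fun i =>
    I7 (Φ s (ζ i)) (c i) ((hcb i).trans_le d2)
  choose w hw1 hw2 using hw
  have hpi : ∀ (σ : Pm θ₀) (i : ℤ) (t : ℝ), Φ σ (ζ i) = ψ t (Φ s (ζ i)) →
      π (Φ σ (ζ i)) = π (Φ s (ζ i)) := fun σ i t ht => by rw [ht, pi_psi h.orb]
  have key : ∀ (σ : Pm θ₀) (α : Ω → ℝ), Shf ψ Φ s σ ρ α → (σ = sp ∨ σ = sm) → ∀ i,
      |S (w i) (α (ζ i)) - σ| < δT := by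
    intro σ α hα hσ i
    have hsb : ∀ i, π (Φ σ (ζ i)) = π (Φ s (ζ i)) := fun i => hpi σ i _ (hα.eq _)
    have g1 : dist (ζ (i + (m : ℕ))) (ζ (i + ((0 : ℕ) : ℤ))) < ηm := by
      rw [hper, Nat.cast_zero, add_zero, dist_self]
      exact hηm
    have g2 : ∀ k < m, dist (R (ζ (i + (k : ℕ)))) (ζ (i + ((k + 1 : ℕ) : ℤ))) < ηm := by
      intro k _
      push_cast
      rw [← add_assoc]
      exact (hjump _).trans_le (min_le_left _ _)
    have g3 : ∀ k ≤ m, dist (f^[k] (c i)) (π (Φ σ (ζ (i + (k : ℕ))))) < ηm := by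
      intro k _
      rw [orb_iter hc, hsb]
      exact (hcb _).trans_le d1
    have g4 : π (ψ (α (ζ i)) (w i)) = c i := by rw [pi_psi h.orb, hw1]
    have g5 : dist (ψ (α (ζ i)) (w i)) (Φ σ (ζ (i + ((0 : ℕ) : ℤ)))) < ηm := by
      rw [Nat.cast_zero, add_zero, hα.eq]
      exact I6 _ _ _ ((hw2 i).trans_le (min_le_left _ _))
    have key' : ∃ σ' : ℝ, |σ' - σ| < δT ∧ ψ (α (ζ i)) (w i) ∈ Per (Rt F ψ σ') := by
      rcases hσ with rfl | rfl
      · exact J1 (c i) m (fun k => ζ (i + k)) _ hm (hfm i) (g1.trans_le n1)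
          (fun k hk => (g2 k hk).trans_le n1) (fun k hk => (g3 k hk).trans_le n1) g4
          (g5.trans_le n1)
      · exact J2 (c i) m (fun k => ζ (i + k)) _ hm (hfm i) (g1.trans_le n2)
          (fun k hk => (g2 k hk).trans_le n2) (fun k hk => (g3 k hk).trans_le n2) g4
          (g5.trans_le n2)
    obtain ⟨σ', hσ', hσ''⟩ := key'
    have hσs : |(σ : ℝ) - s| < εb := by
      rcases hσ with rfl | rfl
      · rw [abs_of_pos (by linarith)]; linarith
      · rw [abs_of_neg (by linarith)]; linarith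
    have hσb : |σ'| < θ₀ := by
      have g6 := abs_sub_abs_le_abs_sub σ' (σ : ℝ)
      have g7 := abs_sub_abs_le_abs_sub (σ : ℝ) s
      linarith
    rw [(h.per (w i) (by rw [hw1]; exact hcP i) σ' hσb _).1 hσ'']
    exact hσ'
  -- the periodic points
  have hp : ∀ i, ∃ p, p ∈ Per (Rt F ψ s) ∧ π p = c i ∧ dist p (Φ s (ζ i)) < ε := by
    intro i
    have k1 := abs_lt.1 (key sp αp hαp (Or.inl rfl) i)
    have k2 := abs_lt.1 (key sm αm hαm (Or.inr rfl) i)
    have hwP : π (w i) ∈ Per f := by rw [hw1]; exact hcP i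
    obtain ⟨t, ht, hts⟩ := intermediate_value_uIcc (h.sf (w i) hwP).cont.continuousOn
      (show (s : ℝ) ∈ uIcc (S (w i) (αm (ζ i))) (S (w i) (αp (ζ i))) from
        mem_uIcc.2 (Or.inl ⟨by linarith, by linarith⟩))
    have htρ : |t| < ρ := by
      have b1 := abs_lt.1 (hαp.small (ζ i))
      have b2 := abs_lt.1 (hαm.small (ζ i))
      rw [abs_lt]
      rcases mem_uIcc.1 ht with hh | hh
      · constructor <;> linarith [hh.1, hh.2]
      · constructor <;> linarith [hh.1, hh.2]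
    refine ⟨ψ t (w i), (h.per (w i) hwP s s.2 t).2 hts, by rw [pi_psi h.orb, hw1], ?_⟩
    have g1 := I4 (w i) t htρ
    have g2 := (hw2 i).trans_le (min_le_right _ _)
    have g3 := dist_triangle (ψ t (w i)) (w i) (Φ s (ζ i))
    linarith
  choose p hp1 hp2 hp3 using hp
  -- they form an orbit
  have hpo : ∀ i, Rt F ψ s (p i) = p (i + 1) := by
    intro i
    have e1 : π (p (i + 1)) = π (Rt F ψ s (p i)) := by
      rw [hp2, (orbR h.orb (s : ℝ)).semi, hp2, hc]
    obtain ⟨t, ht⟩ := (h.orb.eq _ _).1 e1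
    have g1 : dist (Rt F ψ s (p i)) (Rt F ψ s (Φ s (ζ i))) < δu / 3 :=
      I3 ((hp3 i).trans_le l2)
    have g2 : dist (Rt F ψ s (Φ s (ζ i))) (Φ s (ζ (i + 1))) < δu / 3 := by
      rw [h.conj]
      exact (I10 ((hjump i).trans_le (min_le_right _ _))).trans_le (min_le_right _ _)
    have g3 : dist (Φ s (ζ (i + 1))) (p (i + 1)) < δu / 3 := by
      rw [dist_comm]
      exact (hp3 (i + 1)).trans_le l3
    have g4 := dist_triangle4 (Rt F ψ s (p i)) (Rt F ψ s (Φ s (ζ i))) (Φ s (ζ (i + 1))) (p (i + 1))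
    obtain ⟨τ, hτ, hτ'⟩ := I2 (p (i + 1)) t (by rw [← ht]; linarith)
    have hb : π (p (i + 1)) ∈ Per f := by rw [hp2]; exact hcP _
    have v0 : S (p (i + 1)) 0 = s := by
      refine (h.per _ hb s s.2 0).1 ?_
      rw [h.top.zero]
      exact hp1 _
    have v1 : S (p (i + 1)) τ = s := by
      refine (h.per _ hb s s.2 τ).1 ?_
      rw [← hτ', ← ht]
      exact per_step (hp1 i)
    obtain ⟨u1', u2'⟩ := abs_lt.1 hτ
    have hτ0 : τ = 0 := by
      rcases lt_trichotomy τ 0 with h1 | h1 | h1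
      · have := (h.sf _ hb).gap (h.lip _ hb) v1 v0 h1
        linarith
      · exact h1
      · have := (h.sf _ hb).gap (h.lip _ hb) v0 v1 h1
        linarith
    rw [ht, hτ', hτ0, h.top.zero]
  have hξ : ∀ i, ∃ ξ, Φ s ξ = p i := fun i => h.rng s (hp1 i)
  choose ξ hξ using hξ
  refine ⟨ξ, fun i => h.inj s ?_, fun i => I1 _ _ ?_⟩
  · rw [← h.conj, hξ, hξ, hpo]
  · rw [hξ]
    exact (hp3 i).trans_le l1

end DG

/-- chains -/
def Chn (R : Ω ≃ₜ Ω) (η : ℝ) (x y : Ω) : Prop :=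
  ∃ n : ℕ, 1 ≤ n ∧ ∃ ζ : ℕ → Ω, ζ 0 = x ∧ ζ n = y ∧ ∀ k < n, dist (R (ζ k)) (ζ (k + 1)) < η

theorem chn_trans {η : ℝ} {x y z : Ω} (h1 : Chn R η x y) (h2 : Chn R η y z) : Chn R η x z := by
  obtain ⟨n, hn, ζ, a1, a2, a3⟩ := h1
  obtain ⟨m, hm, ξ, b1, b2, b3⟩ := h2
  refine ⟨n + m, by omega, fun k => if k ≤ n then ζ k else ξ (k - n), ?_, ?_, ?_⟩
  · simp [a1]
  · have : ¬ n + m ≤ n := by omega
    simp only [this, if_false]
    rw [Nat.add_sub_cancel_left, b2]
  · intro k hk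
    by_cases h3 : k + 1 ≤ n
    · have h4 : k ≤ n := by omega
      simp only [h3, h4, if_true]
      exact a3 k (by omega)
    · by_cases h4 : k ≤ n
      · have h5 : k = n := by omega
        subst h5
        simp only [le_refl, if_true, h3, if_false]
        rw [Nat.add_sub_cancel_left, a2, ← b1]
        exact b3 0 (by omega)
      · simp only [h3, h4, if_false]
        rw [show k + 1 - n = k - n + 1 by omega]
        exact b3 (k - n) (by omega)

/-- steps can be reversed -/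
theorem chn_rev (hd : ∀ U : Set Ω, IsOpen U → U.Nonempty → ∃ ω ∈ U, ω ∈ Per R) {η : ℝ}
    (hη : 0 < η) : ∃ η' : ℝ, 0 < η' ∧ ∀ x y, dist (R x) y < η' → Chn R η y x := by
  obtain ⟨δ₁, hδ₁, H1⟩ := Metric.uniformContinuous_iff.1
    (CompactSpace.uniformContinuous_of_continuous R.continuous) η hη
  obtain ⟨δ₂, hδ₂, H2⟩ := Metric.uniformContinuous_iff.1
    (CompactSpace.uniformContinuous_of_continuous R.symm.continuous) η hη
  refine ⟨δ₁ / 2, by linarith, fun x y hxy => ?_⟩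
  obtain ⟨p, hp, m, hm, hpm⟩ := hd (ball (R x) (min (δ₁ / 2) δ₂)) isOpen_ball
    ⟨R x, mem_ball_self (by positivity)⟩
  rw [mem_ball] at hp
  have e1 : R^[3 * m] p = p := by
    rw [mul_comm, Function.iterate_mul]
    exact Function.iterate_fixed hpm 3
  obtain ⟨n, hn, hn3⟩ : ∃ n, 3 * m = n + 1 ∧ 2 ≤ n := ⟨3 * m - 1, by omega, by omega⟩
  rw [hn, Function.iterate_succ_apply'] at e1
  have e2 : R^[n] p = R.symm p := R.injective (by rw [e1, R.apply_symm_apply])
  refine ⟨n, by omega, fun k => if k = 0 then y else if k = n then x else R^[k] p, by simp, ?_, ?_⟩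
  · have : ¬ n = 0 := by omega
    simp [this]
  · intro k hk
    have h1 : ¬ k + 1 = 0 := by omega
    have h2 : ¬ k = n := by omega
    simp only [h1, h2, if_false]
    by_cases h3 : k = 0
    · subst h3
      have h4 : ¬ 0 + 1 = n := by omega
      simp only [h4, if_true, if_false]
      show dist (R y) (R p) < η
      refine H1 ?_
      have h5 := dist_triangle_left y p (R x)
      have h6 := hp.trans_le (min_le_left _ _)
      rw [dist_comm] at h6
      linarith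
    · simp only [h3, if_false]
      by_cases h4 : k + 1 = n
      · simp only [h4, if_true]
        rw [← Function.iterate_succ_apply' R, Nat.succ_eq_add_one, h4, e2]
        have h5 := H2 (hp.trans_le (min_le_right _ _))
        rwa [R.symm_apply_apply] at h5
      · simp only [h4, if_false]
        rw [← Function.iterate_succ_apply' R, dist_self]
        exact hη

/-- the periodic extension of a closed chain -/
theorem per_ext {η : ℝ} {m : ℕ} (hm : 1 ≤ m) {P : ℕ → Ω} (hP : P m = P 0)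
    (hj : ∀ k < m, dist (R (P k)) (P (k + 1)) < η) :
    (∀ i : ℤ, P ((i + m) % m).toNat = P (i % m).toNat) ∧
      ∀ i : ℤ, dist (R (P (i % m).toNat)) (P ((i + 1) % m).toNat) < η := by
  refine ⟨fun i => by rw [Int.add_emod_right], fun i => ?_⟩
  have hm0 : (0 : ℤ) < m := by exact_mod_cast hm
  have h1 := Int.emod_nonneg i hm0.ne'
  have h2 := Int.emod_lt_of_pos i hm0
  obtain ⟨r, hr⟩ : ∃ r : ℕ, i % m = r := ⟨(i % m).toNat, (Int.toNat_of_nonneg h1).symm⟩
  have hrm : r < m := by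
    rw [hr] at h2
    exact_mod_cast h2
  have h3 : (i + 1) % m = ((r : ℤ) + 1) % m := by
    rw [← hr, Int.emod_add_emod]
  rw [hr, Int.toNat_natCast]
  by_cases h4 : r + 1 = m
  · have h5 : (i + 1) % m = 0 := by
      rw [h3, show ((r : ℤ) + 1) = m by exact_mod_cast h4, Int.emod_self]
    rw [h5]
    have h6 := hj r hrm
    rw [h4, hP] at h6
    exact h6
  · have h5 : (i + 1) % m = ((r + 1 : ℕ) : ℤ) := by
      rw [h3, Int.emod_eq_of_lt (by omega) (by omega)]
      push_cast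
      rfl
    rw [h5, Int.toNat_natCast]
    exact hj r hrm

namespace DG

variable (h : DG F ψ a π f θ₀ S e R Φ)

include h

/-- **Shadowing.** -/
theorem shad (hf : MShad f (Omega f)) {s : Pm θ₀}
    (hs : ∀ ε : ℝ, 0 < ε → (∃ s' : Pm θ₀, (s : ℝ) < s' ∧ (s' : ℝ) < s + ε ∧
      dist (Φ s') (Φ s) < ε) ∧ ∃ s' : Pm θ₀, (s' : ℝ) < s ∧ (s : ℝ) - ε < s' ∧
      dist (Φ s') (Φ s) < ε) : MShad R univ := by
  intro δ hδ
  obtain ⟨η, hη, H⟩ := h.pshad hf hs (show 0 < δ / 2 by linarith)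
  obtain ⟨η', hη', Hrev⟩ := chn_rev h.dens hη
  refine ⟨min η η', lt_min hη hη', fun ζ _ hζ => ?_⟩
  -- finite windows
  have win : ∀ M : ℕ, ∃ x : Ω, ∀ i : ℕ, i ≤ 2 * M → dist (R^[i] x) (ζ (-M + i)) < δ / 2 := by
    intro M
    have hback : ∀ i : ℕ, Chn R η (ζ (-M + 1 + i)) (ζ (-M)) := by
      intro i
      induction i with
      | zero =>
        refine Hrev _ _ ?_
        have := (hζ (-M)).trans_le (min_le_right _ _)
        simpa using this
      | succ i ih =>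
        refine chn_trans (Hrev _ _ ?_) ih
        have := (hζ (-M + 1 + i)).trans_le (min_le_right _ _)
        push_cast
        rwa [← add_assoc]
    obtain ⟨n, hn, r, r0, rn, rj⟩ := hback (2 * M)
    obtain ⟨P, hPdef⟩ : ∃ P : ℕ → Ω, P = fun k => if k ≤ 2 * M then ζ (-M + k) else
      r (k - (2 * M + 1)) := ⟨_, rfl⟩
    have hPm : P (2 * M + 1 + n) = P 0 := by
      have h1 : ¬ 2 * M + 1 + n ≤ 2 * M := by omega
      rw [hPdef]
      simp only [h1, if_false, Nat.zero_le, if_true]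
      rw [Nat.add_sub_cancel_left, rn]
      simp
    have hPj : ∀ k < 2 * M + 1 + n, dist (R (P k)) (P (k + 1)) < η := by
      intro k hk
      rw [hPdef]
      by_cases h1 : k + 1 ≤ 2 * M
      · have h2 : k ≤ 2 * M := by omega
        simp only [h1, h2, if_true]
        push_cast
        rw [← add_assoc]
        exact (hζ _).trans_le (min_le_left _ _)
      · by_cases h2 : k ≤ 2 * M
        · have h3 : k = 2 * M := by omega
          subst h3
          simp only [le_refl, if_true, h1, if_false]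
          rw [Nat.sub_self, r0]
          have := (hζ (-M + ((2 * M : ℕ) : ℤ))).trans_le (min_le_left _ _)
          rw [show -(M : ℤ) + 1 + ((2 * M : ℕ) : ℤ) = -M + ((2 * M : ℕ) : ℤ) + 1 by ring]
          exact this
        · simp only [h1, h2, if_false]
          rw [show k + 1 - (2 * M + 1) = k - (2 * M + 1) + 1 by omega]
          exact rj _ (by omega)
    obtain ⟨e1, e2⟩ := per_ext (R := R) (show 1 ≤ 2 * M + 1 + n by omega) hPm hPj
    obtain ⟨ξ, hξ1, hξ2⟩ := H (2 * M + 1 + n) (fun i => P (i % ((2 * M + 1 + n : ℕ) : ℤ)).toNat)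
      (by omega) e1 e2
    refine ⟨ξ 0, fun i hi => ?_⟩
    rw [orb_iter (fun i => (hξ1 i).symm), zero_add]
    have h1 := hξ2 i
    have h2 : ((i : ℤ) % ((2 * M + 1 + n : ℕ) : ℤ)).toNat = i := by
      rw [Int.emod_eq_of_lt (by omega) (by omega), Int.toNat_natCast]
    have h3 : P i = ζ (-M + i) := by
      rw [hPdef]
      simp only [hi, if_true]
    have h1' : dist (ξ i) (P ((i : ℤ) % ((2 * M + 1 + n : ℕ) : ℤ)).toNat) < δ / 2 := h1
    rw [h2, h3] at h1'
    exact h1'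
  choose x hx using win
  -- the limit
  obtain ⟨y, φ, hφ, hlim⟩ := CompactSpace.tendsto_subseq fun M => R^[M] (x M)
  refine ⟨fun i => ((R.toEquiv : Equiv.Perm Ω) ^ i) y, fun _ => mem_univ _, fun i => ?_,
    fun i => ?_⟩
  · show R (((R.toEquiv : Equiv.Perm Ω) ^ i) y) = ((R.toEquiv : Equiv.Perm Ω) ^ (i + 1)) y
    rw [add_comm, zpow_add, zpow_one, Equiv.Perm.mul_apply]
    rfl
  · have hcont : ∀ i : ℤ, Continuous fun z : Ω => ((R.toEquiv : Equiv.Perm Ω) ^ i) z := by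
      intro i
      induction i with
      | zero => exact continuous_id
      | succ i ih =>
        have : (fun z : Ω => ((R.toEquiv : Equiv.Perm Ω) ^ ((i : ℤ) + 1)) z) =
            fun z => R (((R.toEquiv : Equiv.Perm Ω) ^ (i : ℤ)) z) := by
          funext z
          rw [add_comm, zpow_add, zpow_one, Equiv.Perm.mul_apply]
          rfl
        rw [this]
        exact R.continuous.comp ih
      | pred i ih =>
        have : (fun z : Ω => ((R.toEquiv : Equiv.Perm Ω) ^ (-(i : ℤ) - 1)) z) =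
            fun z => R.symm (((R.toEquiv : Equiv.Perm Ω) ^ (-(i : ℤ))) z) := by
          funext z
          rw [sub_eq_add_neg, add_comm, zpow_add, zpow_neg_one, Equiv.Perm.mul_apply]
          rfl
        rw [this]
        exact R.symm.continuous.comp ih
    have hl : Tendsto (fun M => ((R.toEquiv : Equiv.Perm Ω) ^ i) (R^[φ M] (x (φ M)))) atTop
        (𝓝 (((R.toEquiv : Equiv.Perm Ω) ^ i) y)) := ((hcont i).tendsto y).comp hlim
    have hl2 : Tendsto (fun M => dist (((R.toEquiv : Equiv.Perm Ω) ^ i)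
        (R^[φ M] (x (φ M)))) (ζ i)) atTop
        (𝓝 (dist (((R.toEquiv : Equiv.Perm Ω) ^ i) y) (ζ i))) := hl.dist tendsto_const_nhds
    refine lt_of_le_of_lt (le_of_tendsto hl2 ?_) (show δ / 2 < δ by linarith)
    filter_upwards [eventually_ge_atTop i.natAbs] with M hM
    have hφM : i.natAbs ≤ φ M := hM.trans (hφ.id_le M)
    obtain ⟨k, hk⟩ : ∃ k : ℕ, (k : ℤ) = i + φ M := ⟨(i + φ M).toNat,
      Int.toNat_of_nonneg (by omega)⟩
    have hk2 : k ≤ 2 * φ M := by omega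
    have h1 := hx (φ M) k hk2
    have h2 : (((R.toEquiv : Equiv.Perm Ω) ^ i)) (R^[φ M] (x (φ M))) = R^[k] (x (φ M)) := by
      have h3 : ∀ (n : ℕ) (z : Ω), R^[n] z = ((R.toEquiv : Equiv.Perm Ω) ^ (n : ℤ)) z := by
        intro n z
        rw [zpow_natCast]
        induction n with
        | zero => rfl
        | succ n ih =>
          rw [Function.iterate_succ_apply', ih, pow_succ', Equiv.Perm.mul_apply]
          rfl
      rw [h3, h3, hk, zpow_add, Equiv.Perm.mul_apply]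
    rw [h2]
    rw [hk, show -(φ M : ℤ) + (i + φ M) = i by ring] at h1
    exact h1.le

end DG

end

end Pool.Agent.V5helper25.TG
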